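import Pool.Agent.N986.PB.Count

/-!
# Gibbs specifications given by local factors

`g j` is a positive function of the variables in the finite set `S j`; `nb i` is a finite set of
indices which contains all `j` with `i ∈ S j`. The weight of the finite volume `V` is the product of
the factors with index in `⋃ i ∈ V, nb i`.
-/

set_option autoImplicit false
set_option linter.unusedSectionVars false
set_option linter.unusedVariables false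

open MeasureTheory Finset Function
open scoped ENNReal Classical

namespace Pool.Agent.N986.PB

noncomputable section

variable {ι κ : Type*} {E : Type*} [MeasurableSpace E]

/-- `f` depends only on the variables in `A` -/
def DependsOn' (f : (ι → E) → ℝ≥0∞) (A : Finset ι) : Prop :=
  ∀ φ φ' : ι → E, (∀ a ∈ A, φ a = φ' a) → f φ = f φ'

lemma In_dep {ν : Measure E} {V : Finset ι} {f : (ι → E) → ℝ≥0∞} {A : Set ι}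
    (hf : ∀ φ φ' : ι → E, (∀ a ∈ A, φ a = φ' a) → f φ = f φ') {ψ ψ' : ι → E}
    (h : ∀ a ∈ A, a ∉ V → ψ a = ψ' a) : In ν V f ψ = In ν V f ψ' := by
  unfold In lmarginal
  refine lintegral_congr fun y => hf _ _ fun a ha => ?_
  by_cases hV : a ∈ V
  · simp [Function.updateFinset_def, hV]
  · simp [Function.updateFinset_def, hV, h a ha hV]

/-- Local factors. -/
structure Fac (ι κ E : Type*) [MeasurableSpace E] where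
  g : κ → (ι → E) → ℝ≥0∞
  S : κ → Finset ι
  nb : ι → Finset κ
  meas : ∀ j, Measurable (g j)
  dep : ∀ j, ∀ φ φ' : ι → E, (∀ a ∈ S j, φ a = φ' a) → g j φ = g j φ'
  mem : ∀ i j, i ∈ S j → j ∈ nb i
  lo : κ → ℝ≥0∞
  hi : κ → ℝ≥0∞
  lo_pos : ∀ j, lo j ≠ 0
  hi_fin : ∀ j, hi j ≠ ∞
  le_g : ∀ j φ, lo j ≤ g j φ
  g_le : ∀ j φ, g j φ ≤ hi j

variable (𝓕 : Fac ι κ E)

/-- The indices of the factors of the volume `V`. -/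
def Fac.P (V : Finset ι) : Finset κ := V.biUnion 𝓕.nb

/-- The weight of the finite volume `V`. -/
def Fac.w (V : Finset ι) (φ : ι → E) : ℝ≥0∞ := ∏ j ∈ 𝓕.P V, 𝓕.g j φ

lemma Fac.P_mono {V Λ : Finset ι} (h : V ⊆ Λ) : 𝓕.P V ⊆ 𝓕.P Λ :=
  Finset.biUnion_subset_biUnion_of_subset_left _ h

lemma Fac.good {ν : Measure E} [IsFiniteMeasure ν] (hν : ν ≠ 0) (Λ : Finset ι) :
    Good ν (𝓕.w Λ) := by
  have hνu : ν Set.univ ≠ 0 := fun h => hν (Measure.measure_univ_eq_zero.1 h)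
  have h1 : ∀ V ψ (c : ℝ≥0∞), In ν V (fun _ : ι → E => c) ψ = c * (ν Set.univ) ^ V.card := by
    intro V ψ c
    unfold In lmarginal
    rw [lintegral_const, Measure.pi_univ, Finset.prod_const]
    simp
  refine ⟨Finset.measurable_fun_prod _ fun j _ => 𝓕.meas j, fun V ψ => ?_, fun V ψ => ?_⟩
  · have h2 := In_mono (ν := ν) (V := V) (f := fun _ : ι → E => ∏ j ∈ 𝓕.P Λ, 𝓕.lo j) (g := 𝓕.w Λ)
      (fun φ => Finset.prod_le_prod' fun j _ => 𝓕.le_g j φ) ψ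
    rw [h1] at h2
    refine ne_of_gt (lt_of_lt_of_le ?_ h2)
    refine ENNReal.mul_pos ?_ (pow_ne_zero _ hνu)
    exact Finset.prod_ne_zero_iff.2 fun j _ => 𝓕.lo_pos j
  · have h2 := In_mono (ν := ν) (V := V) (g := fun _ : ι → E => ∏ j ∈ 𝓕.P Λ, 𝓕.hi j) (f := 𝓕.w Λ)
      (fun φ => Finset.prod_le_prod' fun j _ => 𝓕.g_le j φ) ψ
    rw [h1] at h2
    refine ne_top_of_le_ne_top ?_ h2
    refine ENNReal.mul_ne_top ?_ (ENNReal.pow_ne_top (measure_ne_top ν _))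
    exact ENNReal.prod_ne_top fun j _ => 𝓕.hi_fin j

lemma Fac.g_ne_zero (j : κ) (φ : ι → E) : 𝓕.g j φ ≠ 0 := fun h =>
  𝓕.lo_pos j (le_antisymm (h ▸ 𝓕.le_g j φ) zero_le)

lemma Fac.g_ne_top (j : κ) (φ : ι → E) : 𝓕.g j φ ≠ ∞ :=
  ne_top_of_le_ne_top (𝓕.hi_fin j) (𝓕.g_le j φ)

/-- the factors which do not touch `V` cancel -/
lemma ev_fac_eq {ν : Measure E} [IsFiniteMeasure ν] {V : Finset ι} {Q Q' : Finset κ}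
    (hQ : 𝓕.P V ⊆ Q) (hQ' : 𝓕.P V ⊆ Q') (f : (ι → E) → ℝ≥0∞)
    (hf : Measurable f) (ψ : ι → E) :
    ev ν (fun φ => ∏ j ∈ Q, 𝓕.g j φ) V f ψ = ev ν (fun φ => ∏ j ∈ Q', 𝓕.g j φ) V f ψ := by
  have key : ∀ Q : Finset κ, 𝓕.P V ⊆ Q →
      ev ν (fun φ => ∏ j ∈ Q, 𝓕.g j φ) V f ψ = ev ν (fun φ => ∏ j ∈ 𝓕.P V, 𝓕.g j φ) V f ψ := by
    intro Q hQ
    obtain ⟨c, hc⟩ : ∃ c, c = ∏ j ∈ Q \ 𝓕.P V, 𝓕.g j ψ := ⟨_, rfl⟩
    have hc0 : c ≠ 0 := hc ▸ Finset.prod_ne_zero_iff.2 fun j _ => 𝓕.g_ne_zero j ψ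
    have hct : c ≠ ∞ := hc ▸ ENNReal.prod_ne_top fun j _ => 𝓕.g_ne_top j ψ
    have h1 : ∀ φ : ι → E, (∀ i ∉ V, φ i = ψ i) → ∏ j ∈ Q \ 𝓕.P V, 𝓕.g j φ = c := by
      intro φ hφ
      rw [hc]
      refine Finset.prod_congr rfl fun j hj => 𝓕.dep j φ ψ fun a ha => hφ a fun haV => ?_
      exact (Finset.mem_sdiff.1 hj).2 (Finset.mem_biUnion.2 ⟨a, haV, 𝓕.mem a j ha⟩)
    have h2 : ∀ φ : ι → E, ∏ j ∈ Q, 𝓕.g j φ =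
        (∏ j ∈ Q \ 𝓕.P V, 𝓕.g j φ) * ∏ j ∈ 𝓕.P V, 𝓕.g j φ := fun φ =>
      (Finset.prod_sdiff hQ).symm
    have mw : Measurable fun φ : ι → E => ∏ j ∈ 𝓕.P V, 𝓕.g j φ :=
      Finset.measurable_fun_prod _ fun j _ => 𝓕.meas j
    unfold ev
    simp_rw [h2]
    have h3 : (fun φ : ι → E => (∏ j ∈ Q \ 𝓕.P V, 𝓕.g j φ) * (∏ j ∈ 𝓕.P V, 𝓕.g j φ) * f φ) =
        fun φ => (∏ j ∈ Q \ 𝓕.P V, 𝓕.g j φ) * ((∏ j ∈ 𝓕.P V, 𝓕.g j φ) * f φ) := by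
      funext φ; ring
    rw [h3, In_mul_left (f := fun φ => (∏ j ∈ 𝓕.P V, 𝓕.g j φ) * f φ) (mm mw hf) h1,
      In_mul_left mw h1, ENNReal.mul_div_mul_left _ _ hc0 hct]
  rw [key Q hQ, key Q' hQ']

lemma ev_w_eq {ν : Measure E} [IsFiniteMeasure ν] {V Λ : Finset ι} (h : V ⊆ Λ)
    {f : (ι → E) → ℝ≥0∞} (hf : Measurable f) (ψ : ι → E) :
    ev ν (𝓕.w Λ) V f ψ = ev ν (𝓕.w V) V f ψ :=
  ev_fac_eq 𝓕 (𝓕.P_mono h) subset_rfl f hf ψ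

/-- the Markov property -/
lemma Fac.markov {ν : Measure E} [IsFiniteMeasure ν] (d : ι → ι → ℕ)
    (hS : ∀ j, ∀ a ∈ 𝓕.S j, ∀ b ∈ 𝓕.S j, d a b ≤ 1) (Λ : Finset ι) :
    Markov d ν (𝓕.w Λ) Λ := by
  intro V hV f A hf hfA ψ ψ' hag
  -- the factors which touch `V`
  obtain ⟨Q, hQ⟩ : ∃ Q, Q = (𝓕.P V).filter fun j => ∃ a ∈ 𝓕.S j, a ∈ V := ⟨_, rfl⟩
  have key : ∀ χ : ι → E, ev ν (𝓕.w Λ) V f χ = ev ν (fun φ => ∏ j ∈ Q, 𝓕.g j φ) V f χ := by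
    intro χ
    have hQP : Q ⊆ 𝓕.P Λ := by
      rw [hQ]; exact (Finset.filter_subset _ _).trans (𝓕.P_mono hV)
    obtain ⟨c, hc⟩ : ∃ c, c = ∏ j ∈ 𝓕.P Λ \ Q, 𝓕.g j χ := ⟨_, rfl⟩
    have hc0 : c ≠ 0 := hc ▸ Finset.prod_ne_zero_iff.2 fun j _ => 𝓕.g_ne_zero j χ
    have hct : c ≠ ∞ := hc ▸ ENNReal.prod_ne_top fun j _ => 𝓕.g_ne_top j χ
    have h1 : ∀ φ : ι → E, (∀ i ∉ V, φ i = χ i) → ∏ j ∈ 𝓕.P Λ \ Q, 𝓕.g j φ = c := by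
      intro φ hφ
      rw [hc]
      refine Finset.prod_congr rfl fun j hj => 𝓕.dep j φ χ fun a ha => hφ a fun haV => ?_
      refine (Finset.mem_sdiff.1 hj).2 ?_
      rw [hQ]
      exact Finset.mem_filter.2 ⟨Finset.mem_biUnion.2 ⟨a, haV, 𝓕.mem a j ha⟩, a, ha, haV⟩
    have h2 : ∀ φ : ι → E, 𝓕.w Λ φ = (∏ j ∈ 𝓕.P Λ \ Q, 𝓕.g j φ) * ∏ j ∈ Q, 𝓕.g j φ := fun φ =>
      (Finset.prod_sdiff hQP).symm
    have mw : Measurable fun φ : ι → E => ∏ j ∈ Q, 𝓕.g j φ :=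
      Finset.measurable_fun_prod _ fun j _ => 𝓕.meas j
    unfold ev
    have h4 : 𝓕.w Λ = fun φ => (∏ j ∈ 𝓕.P Λ \ Q, 𝓕.g j φ) * ∏ j ∈ Q, 𝓕.g j φ := funext h2
    simp_rw [h4]
    have h3 : (fun φ : ι → E => (∏ j ∈ 𝓕.P Λ \ Q, 𝓕.g j φ) * (∏ j ∈ Q, 𝓕.g j φ) * f φ) =
        fun φ => (∏ j ∈ 𝓕.P Λ \ Q, 𝓕.g j φ) * ((∏ j ∈ Q, 𝓕.g j φ) * f φ) := by
      funext φ; ring
    rw [h3, In_mul_left (f := fun φ => (∏ j ∈ Q, 𝓕.g j φ) * f φ) (mm mw hf) h1,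
      In_mul_left mw h1, ENNReal.mul_div_mul_left _ _ hc0 hct]
  rw [key ψ, key ψ']
  have hdep : ∀ j ∈ Q, ∀ a ∈ 𝓕.S j, a ∉ V → ψ a = ψ' a := by
    intro j hj a ha haV
    rw [hQ] at hj
    obtain ⟨-, b, hb, hbV⟩ := Finset.mem_filter.1 hj
    exact hag a haV (Or.inr ⟨b, hbV, hS j b hb a ha⟩)
  have hg : ∀ φ φ' : ι → E, (∀ a ∈ {a : ι | a ∈ A ∨ ∃ j ∈ Q, a ∈ 𝓕.S j}, φ a = φ' a) →
      (∏ j ∈ Q, 𝓕.g j φ) = ∏ j ∈ Q, 𝓕.g j φ' := fun φ φ' h =>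
    Finset.prod_congr rfl fun j hj => 𝓕.dep j φ φ' fun a ha => h a (Or.inr ⟨j, hj, ha⟩)
  have hagS : ∀ a ∈ {a : ι | a ∈ A ∨ ∃ j ∈ Q, a ∈ 𝓕.S j}, a ∉ V → ψ a = ψ' a := by
    rintro a (ha | ⟨j, hj, ha⟩) haV
    · exact hag a haV (Or.inl ha)
    · exact hdep j hj a ha haV
  unfold ev
  congr 1
  · refine In_dep (A := {a : ι | a ∈ A ∨ ∃ j ∈ Q, a ∈ 𝓕.S j}) (fun φ φ' h => ?_) hagS
    show (∏ j ∈ Q, 𝓕.g j φ) * f φ = (∏ j ∈ Q, 𝓕.g j φ') * f φ'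
    rw [hg φ φ' h, hfA φ φ' fun a ha => h a (Or.inl ha)]
  · exact In_dep (A := {a : ι | a ∈ A ∨ ∃ j ∈ Q, a ∈ 𝓕.S j}) hg hagS

end

end Pool.Agent.N986.PB
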