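import Pool.Agent.N986.PB.Energy
import Pool.Agent.N986.PB.Spec

/-!
# The machine: the Markov property
-/

set_option autoImplicit false
set_option linter.unusedSectionVars false
set_option linter.unusedVariables false

open MeasureTheory Finset Function
open scoped ENNReal Classical
open Pool.Agent.N986.PB

namespace Pool.Agent.N990.Mach

noncomputable section

variable {ι τ K Y V : Type*} [Group K] [MeasurableSpace K]
    [NormedAddCommGroup Y] [NormedSpace ℝ Y] [NormedAddCommGroup V] [NormedSpace ℝ V]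
    {ν : Measure K} {c : Cst}

namespace Sys

variable (S : Sys ι τ K Y V ν c)

lemma wB_dep (β : ℝ) (B : Finset ι) (φ φ' : ι → K) (h : ∀ a ∈ cl S.T S.sp B, φ a = φ' a) :
    S.wB β B φ = S.wB β B φ' := by
  have h1 : S.HA B φ = S.HA B φ' := by
    unfold HA
    refine Finset.sum_congr rfl fun t ht => ?_
    refine S.hloc t (S.tch_sub B ht) φ φ' fun y hy => h y ?_
    exact Finset.mem_biUnion.2 ⟨t, ht, hy⟩
  unfold wB
  rw [h1]

lemma mem_cl' {B : Finset ι} {y : ι} (hy : y ∈ cl S.T S.sp B) : ∃ x ∈ B, S.d x y ≤ 1 := by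
  obtain ⟨t, ht, hyt⟩ := Finset.mem_biUnion.1 hy
  obtain ⟨ht1, ht2⟩ := Finset.mem_filter.1 ht
  obtain ⟨x, hx1, hx2⟩ := Finset.not_disjoint_iff.1 ht2
  exact ⟨x, hx2, S.diam t ht1 x hx1 y hyt⟩

/-- **The Markov property.** -/
lemma markov [SigmaFinite ν] (β : ℝ) : Markov S.d ν (S.w β) S.Lam := by
  intro W hW f A hf hfA ψ ψ' hag
  rw [S.ev_local β W hf, S.ev_local β W hf]
  have hagS : ∀ a ∈ {a : ι | a ∈ A ∨ a ∈ cl S.T S.sp W}, a ∉ W → ψ a = ψ' a := by
    rintro a (ha | ha) haW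
    · exact hag a haW (Or.inl ha)
    · exact hag a haW (Or.inr (S.mem_cl' ha))
  congr 1
  · refine In_dep (A := {a : ι | a ∈ A ∨ a ∈ cl S.T S.sp W}) (fun φ φ' h => ?_) hagS
    rw [S.wB_dep β W φ φ' fun a ha => h a (Or.inr ha), hfA φ φ' fun a ha => h a (Or.inl ha)]
  · exact In_dep (A := {a : ι | a ∈ A ∨ a ∈ cl S.T S.sp W})
      (fun φ φ' h => S.wB_dep β W φ φ' fun a ha => h a (Or.inr ha)) hagS

end Sys

end

end Pool.Agent.N990.Mach
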