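import Pool.Agent.N986.PB.Energy

/-!
# The machine: large spins are unlikely
-/

set_option autoImplicit false
set_option linter.unusedSectionVars false
set_option linter.unusedVariables false

open MeasureTheory Finset Function Filter Topology
open scoped ENNReal Classical
open Pool.Agent.N986.PB

namespace Pool.Agent.N990.Mach

noncomputable section

lemma ev_rpow {a b : ℝ} (C : ℝ) (h : b < a) : ∀ᶠ β : ℝ in atTop, C * β ^ b ≤ β ^ a := by
  have h1 : Tendsto (fun β : ℝ => β ^ (a - b)) atTop atTop := tendsto_rpow_atTop (by linarith)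
  filter_upwards [h1.eventually_ge_atTop C, eventually_gt_atTop 0] with β h2 h3
  have h4 : β ^ a = β ^ (a - b) * β ^ b := by rw [← Real.rpow_add h3]; congr 1; ring
  rw [h4]
  exact mul_le_mul_of_nonneg_right h2 (Real.rpow_nonneg h3.le _)

lemma ev_log {a : ℝ} (C : ℝ) (h : 0 < a) : ∀ᶠ β : ℝ in atTop, C * Real.log β ≤ β ^ a := by
  have h1 := (isLittleO_log_rpow_atTop h).def (c := (|C| + 1)⁻¹) (by positivity)
  filter_upwards [h1, eventually_gt_atTop 0, eventually_ge_atTop 1] with β h2 h3 h4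
  rw [Real.norm_eq_abs, Real.norm_eq_abs, abs_of_nonneg (Real.log_nonneg h4),
    abs_of_nonneg (Real.rpow_nonneg h3.le _)] at h2
  have h5 : (|C| + 1) * Real.log β ≤ β ^ a := by
    have := mul_le_mul_of_nonneg_left h2 (by positivity : 0 ≤ |C| + 1)
    rwa [← mul_assoc, mul_inv_cancel₀ (by positivity), one_mul] at this
  have h6 := Real.log_nonneg h4
  have h7 := le_abs_self C
  nlinarith

/-- powers of the radius are small -/
lemma ev_rad (k : ℝ) (hk : 0 ≤ k) (C : ℝ) (n : ℕ) {a : ℝ} (ha : 0 < a) :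
    ∀ᶠ β : ℝ in atTop, C * ((rad k β : ℝ) + 2) ^ n ≤ β ^ a := by
  obtain ⟨b, hb⟩ : ∃ b : ℝ, b = a / (2 * (n + 1)) := ⟨_, rfl⟩
  have hn : (0 : ℝ) < 2 * (n + 1) := by positivity
  have hb0 : 0 < b := hb ▸ div_pos ha hn
  have hb1 : b * n < a := by
    have h1 : b * (2 * (n + 1)) = a := by rw [hb]; exact div_mul_cancel₀ _ hn.ne'
    nlinarith
  have h1 := ev_log (2 * k) hb0
  have h2 := ev_rpow (a := b) (b := 0) 6 hb0
  have h3 := ev_rpow (a := a) (b := b * n) |C| hb1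
  filter_upwards [h1, h2, h3, eventually_ge_atTop 1] with β h1 h2 h3 h4
  rw [Real.rpow_zero, mul_one] at h2
  have h5 : (rad k β : ℝ) ≤ k * Real.log β + 1 := by
    unfold rad
    exact (Nat.ceil_lt_add_one (mul_nonneg hk (Real.log_nonneg h4))).le
  have h6 : (rad k β : ℝ) + 2 ≤ β ^ b := by linarith
  have h7 : ((rad k β : ℝ) + 2) ^ n ≤ β ^ (b * n) := by
    rw [Real.rpow_mul (by linarith), Real.rpow_natCast]
    exact pow_le_pow_left₀ (by positivity) h6 n
  calc C * ((rad k β : ℝ) + 2) ^ n ≤ |C| * ((rad k β : ℝ) + 2) ^ n :=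
        mul_le_mul_of_nonneg_right (le_abs_self C) (by positivity)
    _ ≤ |C| * β ^ (b * n) := mul_le_mul_of_nonneg_left h7 (abs_nonneg C)
    _ ≤ _ := h3

variable {K Y V : Type*} [Group K] [MeasurableSpace K]
    [NormedAddCommGroup Y] [NormedSpace ℝ Y] [NormedAddCommGroup V] [NormedSpace ℝ V]
    {ν : Measure K} {c : Cst}

lemma kap_le (c : Cst) {a : ℝ} (ha : 0 < a) : ∀ᶠ β : ℝ in atTop, Sys.kap c β ≤ β ^ a := by
  have h1 := ev_log (2 * (c.nv / 2)) ha
  have h2 := ev_rpow (a := a) (b := 0) (2 * (c.C0 - Real.log c.cv)) ha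
  filter_upwards [h1, h2] with β h1 h2
  rw [Real.rpow_zero, mul_one] at h2
  unfold Sys.kap
  linarith

variable {ι τ : Type*}

namespace Sys

variable (S : Sys ι τ K Y V ν c)

lemma mem_cl {B : Finset ι} {y : ι} (hy : y ∈ cl S.T S.sp B) : ∃ x ∈ B, S.d x y ≤ 1 := by
  obtain ⟨t, ht, hyt⟩ := Finset.mem_biUnion.1 hy
  obtain ⟨htT, hnd⟩ := Finset.mem_filter.1 ht
  obtain ⟨x, hx1, hx2⟩ := Finset.not_disjoint_iff.1 hnd
  exact ⟨x, hx2, S.diam t htT x hx1 y hyt⟩

lemma card_bd (B : Finset ι) : ((S.bd B).card : ℝ) ≤ B.card * (c.Cg * 2 ^ c.Dg) := by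
  have h1 : S.bd B ⊆ B.biUnion fun x => (S.bd B).filter fun y => S.d x y ≤ 1 := by
    intro y hy
    obtain ⟨x, hx, hxy⟩ := S.mem_cl (Finset.mem_sdiff.1 hy).1
    exact Finset.mem_biUnion.2 ⟨x, hx, Finset.mem_filter.2 ⟨hy, hxy⟩⟩
  have h2 := (Finset.card_le_card h1).trans Finset.card_biUnion_le
  have h3 : ((S.bd B).card : ℝ) ≤ ∑ x ∈ B, (((S.bd B).filter fun y => S.d x y ≤ 1).card : ℝ) := by
    exact_mod_cast h2
  refine h3.trans ?_
  calc ∑ x ∈ B, (((S.bd B).filter fun y => S.d x y ≤ 1).card : ℝ)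
      ≤ ∑ x ∈ B, (c.Cg * 2 ^ c.Dg) := by
        refine Finset.sum_le_sum fun x _ => ?_
        have := S.growth (S.bd B) x 1
        norm_num at this
        exact this
    _ = _ := by rw [Finset.sum_const, nsmul_eq_mul]

end Sys

lemma ind_meas {X : Type*} [MeasurableSpace X] {P : X → Prop} (h : MeasurableSet {x | P x}) :
    Measurable (ind P) := by
  unfold ind
  exact Measurable.ite h measurable_const measurable_const

/-- **One step.** -/
theorem small1 [IsProbabilityMeasure ν] : Small1 (Y := Y) (V := V) ν c := by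
  intro e0 e1 he0 he1
  obtain ⟨η, hη⟩ : ∃ η, η = e1 - e0 := ⟨_, rfl⟩
  have hη0 : 0 < η := by linarith
  have hc0 := c.hc0
  have A1 := ev_rpow (a := 2 * e1) (b := η + 2 * e0) (4 * (c.C0 * (c.Cg * 2 ^ c.Dg)) / c.c0)
    (by linarith)
  have A2 := ev_rpow (a := 2 * e1) (b := η + e0) (4 / c.c0) (by linarith)
  have A3 := ev_rpow (a := 2 * e1) (b := e1) (4 / c.c0) (by linarith)
  have A4 := kap_le c he0
  obtain ⟨β₀, hβ₀⟩ := eventually_atTop.1 (A1.and (A2.and (A3.and A4)))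
  refine ⟨η, hη0, max β₀ 1, le_max_right _ _, fun β hβ ι τ S A hA hcard ψ hψ => ?_⟩
  obtain ⟨a1, a2, a3, a4⟩ := hβ₀ β ((le_max_left _ _).trans hβ)
  have hβ1 : 1 ≤ β := (le_max_right _ _).trans hβ
  have hβ0 : 0 < β := by linarith
  have hC0 := c.hC0
  have hCg := c.hCg
  have mE : Measurable (ind fun φ : ι → K => ∃ a ∈ A, β ^ (-1 / 2 + e1) < S.nrm (φ a)) := by
    refine ind_meas ?_
    have : {φ : ι → K | ∃ a ∈ A, β ^ (-1 / 2 + e1) < S.nrm (φ a)} =
        ⋃ a ∈ A, {φ : ι → K | β ^ (-1 / 2 + e1) < S.nrm (φ a)} := by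
      ext φ; simp
    rw [this]
    exact Finset.measurableSet_biUnion _ fun a _ =>
      measurableSet_lt measurable_const (S.nrm_meas.comp (measurable_pi_apply a))
  refine (S.step hβ1 hA ψ _ mE (c.c0 * β ^ (2 * e1)) ?_).trans
    (ENNReal.ofReal_le_ofReal (Real.exp_le_exp.2 ?_))
  · rintro φ - ⟨a, ha, hlt⟩
    have h1 : (β ^ (-1 / 2 + e1)) ^ 2 ≤ ∑ y ∈ A, S.nrm (φ y) ^ 2 := by
      refine le_trans (pow_le_pow_left₀ (Real.rpow_nonneg hβ0.le _) hlt.le 2) ?_
      exact Finset.single_le_sum (f := fun y => S.nrm (φ y) ^ 2) (fun y _ => sq_nonneg _) ha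
    have h2 : (β ^ (-1 / 2 + e1)) ^ 2 = β⁻¹ * β ^ (2 * e1) := by
      rw [← Real.rpow_natCast, ← Real.rpow_mul hβ0.le, ← Real.rpow_neg_one, ← Real.rpow_add hβ0]
      congr 1
      push_cast
      ring
    rw [h2] at h1
    calc c.c0 * β ^ (2 * e1) = β * (c.c0 * (β⁻¹ * β ^ (2 * e1))) := by field_simp
      _ ≤ _ := by gcongr
  · have h1 : ∑ y ∈ S.bd A, S.nrm (ψ y) ^ 2 ≤ A.card * (c.Cg * 2 ^ c.Dg) * (β⁻¹ * β ^ (2 * e0)) := by
      have h2 : (β ^ (-1 / 2 + e0)) ^ 2 = β⁻¹ * β ^ (2 * e0) := by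
        rw [← Real.rpow_natCast, ← Real.rpow_mul hβ0.le, ← Real.rpow_neg_one, ← Real.rpow_add hβ0]
        congr 1
        push_cast
        ring
      rw [← h2]
      calc ∑ y ∈ S.bd A, S.nrm (ψ y) ^ 2 ≤ ∑ y ∈ S.bd A, (β ^ (-1 / 2 + e0)) ^ 2 :=
            Finset.sum_le_sum fun y hy => pow_le_pow_left₀ (S.nrm_nonneg _) (hψ y hy) 2
        _ = (S.bd A).card * (β ^ (-1 / 2 + e0)) ^ 2 := by rw [Finset.sum_const, nsmul_eq_mul]
        _ ≤ _ := mul_le_mul_of_nonneg_right (S.card_bd A) (sq_nonneg _)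
    have hx0 : 0 ≤ β ^ (2 * e0) := Real.rpow_nonneg hβ0.le _
    have h3 : β * c.C0 * ∑ y ∈ S.bd A, S.nrm (ψ y) ^ 2 ≤
        c.C0 * (c.Cg * 2 ^ c.Dg) * β ^ (η + 2 * e0) := by
      calc β * c.C0 * ∑ y ∈ S.bd A, S.nrm (ψ y) ^ 2
          ≤ β * c.C0 * (A.card * (c.Cg * 2 ^ c.Dg) * (β⁻¹ * β ^ (2 * e0))) := by gcongr
        _ = A.card * (c.C0 * (c.Cg * 2 ^ c.Dg) * β ^ (2 * e0)) := by field_simp
        _ ≤ β ^ η * (c.C0 * (c.Cg * 2 ^ c.Dg) * β ^ (2 * e0)) := by gcongr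
        _ = _ := by rw [Real.rpow_add hβ0]; ring
    have h4 : A.card * Sys.kap c β ≤ β ^ (η + e0) := by
      calc (A.card : ℝ) * Sys.kap c β ≤ A.card * β ^ e0 := by gcongr
        _ ≤ β ^ η * β ^ e0 := by gcongr
        _ = _ := by rw [Real.rpow_add hβ0]
    have g1 : c.C0 * (c.Cg * 2 ^ c.Dg) * β ^ (η + 2 * e0) ≤ c.c0 / 4 * β ^ (2 * e1) := by
      have := mul_le_mul_of_nonneg_left a1 (by positivity : 0 ≤ c.c0 / 4)
      refine le_trans (le_of_eq ?_) this
      field_simp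
    have g2 : β ^ (η + e0) ≤ c.c0 / 4 * β ^ (2 * e1) := by
      have := mul_le_mul_of_nonneg_left a2 (by positivity : 0 ≤ c.c0 / 4)
      refine le_trans (le_of_eq ?_) this
      field_simp
    have g3 : β ^ e1 ≤ c.c0 / 4 * β ^ (2 * e1) := by
      have := mul_le_mul_of_nonneg_left a3 (by positivity : 0 ≤ c.c0 / 4)
      refine le_trans (le_of_eq ?_) this
      field_simp
    have g4 : 0 ≤ β ^ (2 * e1) := Real.rpow_nonneg hβ0.le _
    nlinarith

namespace Sys

variable (S : Sys ι τ K Y V ν c)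

/-- the part of `A` at distance at most `r` from `z` -/
def Bl (A : Finset ι) (z : ι) (r : ℕ) : Finset ι := A.filter fun y => S.d z y ≤ r

/-- the sum of the squares of the sizes in the ball -/
def en (A : Finset ι) (z : ι) (r : ℕ) (φ : ι → K) : ℝ := ∑ y ∈ S.Bl A z r, S.nrm (φ y) ^ 2

lemma Bl_mono (A : Finset ι) (z : ι) (r : ℕ) : S.Bl A z r ⊆ S.Bl A z (r + 1) := by
  intro y hy
  obtain ⟨h1, h2⟩ := Finset.mem_filter.1 hy
  exact Finset.mem_filter.2 ⟨h1, by omega⟩

lemma en_succ (A : Finset ι) (z : ι) (r : ℕ) (φ : ι → K) : S.en A z (r + 1) φ =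
    ∑ y ∈ S.Bl A z (r + 1) \ S.Bl A z r, S.nrm (φ y) ^ 2 + S.en A z r φ :=
  (Finset.sum_sdiff (S.Bl_mono A z r)).symm

lemma en_meas (A : Finset ι) (z : ι) (r : ℕ) : Measurable (S.en A z r) :=
  Finset.measurable_fun_sum _ fun y _ => (S.nrm_meas.comp (measurable_pi_apply y)).pow_const 2

lemma en_le (A : Finset ι) (z : ι) (r : ℕ) (φ : ι → K) :
    S.en A z r φ ≤ c.Cg * ((r : ℝ) + 1) ^ c.Dg * c.nm ^ 2 := by
  unfold en
  calc ∑ y ∈ S.Bl A z r, S.nrm (φ y) ^ 2 ≤ ∑ y ∈ S.Bl A z r, c.nm ^ 2 :=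
        Finset.sum_le_sum fun y _ => pow_le_pow_left₀ (S.nrm_nonneg _) (S.nrm_le _) 2
    _ = (S.Bl A z r).card * c.nm ^ 2 := by rw [Finset.sum_const, nsmul_eq_mul]
    _ ≤ _ := mul_le_mul_of_nonneg_right (S.growth A z r) (sq_nonneg _)

/-- growth of the energy if no radius is good -/
lemma en_grow {A : Finset ι} {z : ι} {φ : ι → K} {n : ℕ} {a x : ℝ} (ha : 0 ≤ a)
    (h0 : x ≤ S.en A z 0 φ)
    (h : ∀ r < n, a * S.en A z r φ ≤ S.en A z (r + 1) φ - S.en A z r φ) :
    (1 + a) ^ n * x ≤ S.en A z n φ := by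
  induction n with
  | zero => simpa using h0
  | succ n ih =>
    have h1 := ih fun r hr => h r (by omega)
    have h2 := h n (by omega)
    calc (1 + a) ^ (n + 1) * x = (1 + a) * ((1 + a) ^ n * x) := by ring
      _ ≤ (1 + a) * S.en A z n φ := mul_le_mul_of_nonneg_left h1 (by linarith)
      _ ≤ _ := by linarith

end Sys

/-- **Hole filling.** -/
theorem small2 [IsProbabilityMeasure ν] : Small2 (Y := Y) (V := V) ν c := by
  have hc0 := c.hc0
  have hC0 := c.hC0
  have hCg := c.hCg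
  have hnm := c.hnm
  obtain ⟨a, ha⟩ : ∃ a, a = c.c0 / (2 * c.C0) := ⟨_, rfl⟩
  have ha0 : 0 < a := by rw [ha]; positivity
  have hla : 0 < Real.log (1 + a) := Real.log_pos (by linarith)
  obtain ⟨k, hk⟩ : ∃ k, k = 2 / Real.log (1 + a) := ⟨_, rfl⟩
  have hk0 : 0 < k := by rw [hk]; positivity
  refine ⟨k, hk0, fun e0 e1 he0 he1 => ?_⟩
  have A1 := ev_rad k hk0.le (2 * (c.Cg * c.nm ^ 2)) c.Dg (a := 1) one_pos
  have A2 := ev_rad k hk0.le (8 * (c.C0 * c.Cg) / c.c0) c.Dg (a := 2 * (e1 - e0)) (by linarith)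
  have A3 := ev_rad k hk0.le (8 * c.Cg / c.c0) c.Dg (a := e1 - e0) (by linarith)
  have A4 := kap_le c he0
  have A5 := ev_rad k hk0.le (8 / c.c0) 1 (a := 2 * e1) (by linarith)
  have A6 := ev_rpow (a := 2 * e1) (b := e1) (8 / c.c0) (by linarith)
  obtain ⟨β₀, hβ₀⟩ := eventually_atTop.1 (A1.and (A2.and (A3.and (A4.and (A5.and A6)))))
  refine ⟨max β₀ 1, le_max_right _ _, fun β hβ ι τ S A hA z hz ψ hψ => ?_⟩
  obtain ⟨a1, a2, a3, a4, a5, a6⟩ := hβ₀ β ((le_max_left _ _).trans hβ)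
  have hβ1 : 1 ≤ β := (le_max_right _ _).trans hβ
  have hβ0 : 0 < β := by linarith
  have hw : Good ν (S.w β) := S.good (IsProbabilityMeasure.ne_zero ν) β
  obtain ⟨n, hn⟩ : ∃ n, n = rad k β := ⟨_, rfl⟩
  rw [← hn] at a1 a2 a3 a5 hψ
  have hsq : ∀ e : ℝ, (β ^ (-1 / 2 + e)) ^ 2 = β⁻¹ * β ^ (2 * e) := by
    intro e
    rw [← Real.rpow_natCast, ← Real.rpow_mul hβ0.le, ← Real.rpow_neg_one, ← Real.rpow_add hβ0]
    congr 1
    push_cast
    ring
  -- the events
  obtain ⟨Ev, hEv⟩ : ∃ Ev : ℕ → (ι → K) → Prop, Ev = fun r φ =>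
    β⁻¹ * β ^ (2 * e1) ≤ S.en A z r φ ∧ S.en A z (r + 1) φ - S.en A z r φ ≤ a * S.en A z r φ :=
      ⟨_, rfl⟩
  have mEv : ∀ r, Measurable (ind (Ev r)) := fun r => by
    rw [hEv]
    exact ind_meas ((measurableSet_le measurable_const (S.en_meas A z r)).inter
      (measurableSet_le ((S.en_meas A z (r + 1)).sub (S.en_meas A z r))
        ((S.en_meas A z r).const_mul a)))
  -- the probability of the events
  obtain ⟨X, hX⟩ : ∃ X : ℝ, X = -(c.c0 / 2 * β ^ (2 * e1)) +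
      c.C0 * (c.Cg * ((n : ℝ) + 2) ^ c.Dg) * β ^ (2 * e0) +
      c.Cg * ((n : ℝ) + 2) ^ c.Dg * β ^ e0 := ⟨_, rfl⟩
  have key : ∀ r < n, ∀ χ : ι → K, (∀ i ∉ A, χ i = ψ i) →
      ev ν (S.w β) (S.Bl A z r) (ind (Ev r)) χ ≤ ENNReal.ofReal (Real.exp X) := by
    intro r hr χ hχ
    obtain ⟨Dr, hDr⟩ : ∃ Dr : ℝ, Dr = ∑ y ∈ S.Bl A z (r + 1) \ S.Bl A z r, S.nrm (χ y) ^ 2 :=
      ⟨_, rfl⟩
    have hBA : S.Bl A z r ⊆ A := Finset.filter_subset _ _
    refine (S.step hβ1 (hBA.trans hA) χ _ (mEv r)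
      (c.c0 / 2 * β ^ (2 * e1) + β * c.C0 * Dr) ?_).trans
      (ENNReal.ofReal_le_ofReal (Real.exp_le_exp.2 ?_))
    · intro φ hφ hE
      rw [hEv] at hE
      obtain ⟨h1, h2⟩ := hE
      have h3 : S.en A z (r + 1) φ - S.en A z r φ = Dr := by
        rw [S.en_succ, add_sub_cancel_right, hDr]
        exact Finset.sum_congr rfl fun y hy => by rw [hφ y (Finset.mem_sdiff.1 hy).2]
      rw [h3] at h2
      have h4 : β * c.C0 * Dr ≤ β * (c.c0 / 2 * S.en A z r φ) := by
        have h5 : c.C0 * (a * S.en A z r φ) = c.c0 / 2 * S.en A z r φ := by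
          rw [ha]; field_simp
        calc β * c.C0 * Dr ≤ β * c.C0 * (a * S.en A z r φ) := by gcongr
          _ = β * (c.C0 * (a * S.en A z r φ)) := by ring
          _ = _ := by rw [h5]
      have h6 : c.c0 / 2 * β ^ (2 * e1) ≤ β * (c.c0 / 2 * S.en A z r φ) := by
        calc c.c0 / 2 * β ^ (2 * e1) = β * (c.c0 / 2 * (β⁻¹ * β ^ (2 * e1))) := by field_simp
          _ ≤ _ := by gcongr
      show _ ≤ β * (c.c0 * S.en A z r φ)
      linarith
    · -- the boundary
      have h1 : ∑ y ∈ S.bd (S.Bl A z r), S.nrm (χ y) ^ 2 ≤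
          Dr + c.Cg * ((n : ℝ) + 2) ^ c.Dg * (β⁻¹ * β ^ (2 * e0)) := by
        have hd : ∀ y ∈ S.bd (S.Bl A z r), S.d z y ≤ r + 1 := by
          intro y hy
          obtain ⟨x, hx, hxy⟩ := S.mem_cl (Finset.mem_sdiff.1 hy).1
          have h1 := (Finset.mem_filter.1 hx).2
          have h2 := S.dtri z x y
          omega
        have h2 : S.bd (S.Bl A z r) ⊆ (S.Bl A z (r + 1) \ S.Bl A z r) ∪
            (S.bd (S.Bl A z r)).filter fun y => y ∉ A := by
          intro y hy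
          by_cases hyA : y ∈ A
          · exact Finset.mem_union_left _ (Finset.mem_sdiff.2
              ⟨Finset.mem_filter.2 ⟨hyA, hd y hy⟩, (Finset.mem_sdiff.1 hy).2⟩)
          · exact Finset.mem_union_right _ (Finset.mem_filter.2 ⟨hy, hyA⟩)
        refine (Finset.sum_le_sum_of_subset_of_nonneg h2 fun _ _ _ => sq_nonneg _).trans ?_
        rw [Finset.sum_union]
        · refine add_le_add hDr.ge ?_
          calc ∑ y ∈ (S.bd (S.Bl A z r)).filter (fun y => y ∉ A), S.nrm (χ y) ^ 2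
              ≤ ∑ y ∈ (S.bd (S.Bl A z r)).filter (fun y => y ∉ A), (β ^ (-1 / 2 + e0)) ^ 2 := by
                refine Finset.sum_le_sum fun y hy => ?_
                obtain ⟨h3, h4⟩ := Finset.mem_filter.1 hy
                rw [hχ y h4]
                exact pow_le_pow_left₀ (S.nrm_nonneg _)
                  (hψ y h4 ((hd y h3).trans (by omega))) 2
            _ = ((S.bd (S.Bl A z r)).filter (fun y => y ∉ A)).card * (β⁻¹ * β ^ (2 * e0)) := by
                rw [Finset.sum_const, nsmul_eq_mul, hsq]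
            _ ≤ c.Cg * ((n : ℝ) + 2) ^ c.Dg * (β⁻¹ * β ^ (2 * e0)) := by
                refine mul_le_mul_of_nonneg_right ?_
                  (mul_nonneg (inv_nonneg.2 hβ0.le) (Real.rpow_nonneg hβ0.le _))
                have h5 := S.growth (S.bd (S.Bl A z r)) z (r + 1)
                have h6 : (((S.bd (S.Bl A z r)).filter (fun y => y ∉ A)).card : ℝ) ≤
                    ((S.bd (S.Bl A z r)).filter fun y => S.d z y ≤ r + 1).card := by
                  exact_mod_cast Finset.card_le_card fun y hy => by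
                    obtain ⟨h3, h4⟩ := Finset.mem_filter.1 hy
                    exact Finset.mem_filter.2 ⟨h3, hd y h3⟩
                refine h6.trans (h5.trans ?_)
                have h7 : (((r + 1 : ℕ) : ℝ) + 1) ≤ (n : ℝ) + 2 := by
                  have : ((r + 1 : ℕ) : ℝ) ≤ n := by exact_mod_cast hr
                  linarith
                gcongr
        · refine Finset.disjoint_left.2 fun y hy1 hy2 => ?_
          have h3 := (Finset.mem_filter.1 (Finset.mem_sdiff.1 hy1).1).1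
          exact (Finset.mem_filter.1 hy2).2 h3
      have h3 : ((S.Bl A z r).card : ℝ) * Sys.kap c β ≤ c.Cg * ((n : ℝ) + 2) ^ c.Dg * β ^ e0 := by
        have h5 : ((S.Bl A z r).card : ℝ) ≤ c.Cg * ((n : ℝ) + 2) ^ c.Dg := by
          refine (S.growth A z r).trans ?_
          have : (r : ℝ) ≤ n := by exact_mod_cast hr.le
          have h7 : (r : ℝ) + 1 ≤ (n : ℝ) + 2 := by linarith
          gcongr
        have h8 : 0 ≤ β ^ e0 := Real.rpow_nonneg hβ0.le _
        calc ((S.Bl A z r).card : ℝ) * Sys.kap c β ≤ (S.Bl A z r).card * β ^ e0 := by gcongr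
          _ ≤ _ := by gcongr
      have h4 : β * c.C0 * ∑ y ∈ S.bd (S.Bl A z r), S.nrm (χ y) ^ 2 ≤ β * c.C0 * Dr +
          c.C0 * (c.Cg * ((n : ℝ) + 2) ^ c.Dg) * β ^ (2 * e0) := by
        calc β * c.C0 * ∑ y ∈ S.bd (S.Bl A z r), S.nrm (χ y) ^ 2
            ≤ β * c.C0 * (Dr + c.Cg * ((n : ℝ) + 2) ^ c.Dg * (β⁻¹ * β ^ (2 * e0))) := by gcongr
          _ = _ := by field_simp
      rw [hX]
      linarith
  -- the union bound
  have hun : ∀ φ : ι → K, (∀ i ∉ A, φ i = ψ i) →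
      ind (fun φ : ι → K => β ^ (-1 / 2 + e1) < S.nrm (φ z)) φ ≤
        ∑ r ∈ Finset.range n, ind (Ev r) φ := by
    intro φ hφ
    by_cases hbad : β ^ (-1 / 2 + e1) < S.nrm (φ z)
    · have h1 : ind (fun φ : ι → K => β ^ (-1 / 2 + e1) < S.nrm (φ z)) φ = 1 := if_pos hbad
      rw [h1]
      have h0 : β⁻¹ * β ^ (2 * e1) ≤ S.en A z 0 φ := by
        rw [← hsq]
        refine le_trans (pow_le_pow_left₀ (Real.rpow_nonneg hβ0.le _) hbad.le 2) ?_
        exact Finset.single_le_sum (f := fun y => S.nrm (φ y) ^ 2) (fun y _ => sq_nonneg _)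
          (Finset.mem_filter.2 ⟨hz, by rw [S.dself]⟩)
      by_contra hno
      have h2 : ∀ r < n, ¬ Ev r φ := by
        intro r hr hE
        refine hno ?_
        have h3 : ind (Ev r) φ = 1 := if_pos hE
        rw [← h3]
        exact Finset.single_le_sum (f := fun r => ind (Ev r) φ) (fun _ _ => zero_le)
          (Finset.mem_range.2 hr)
      -- all radii are large
      have h3 : ∀ r ≤ n, β⁻¹ * β ^ (2 * e1) ≤ S.en A z r φ := by
        intro r hr
        induction r with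
        | zero => exact h0
        | succ r ih =>
          refine (ih (by omega)).trans ?_
          rw [S.en_succ]
          have : 0 ≤ ∑ y ∈ S.Bl A z (r + 1) \ S.Bl A z r, S.nrm (φ y) ^ 2 :=
            Finset.sum_nonneg fun _ _ => sq_nonneg _
          linarith
      have h4 : ∀ r < n, a * S.en A z r φ ≤ S.en A z (r + 1) φ - S.en A z r φ := by
        intro r hr
        by_contra hlt
        refine h2 r hr ?_
        rw [hEv]
        exact ⟨h3 r hr.le, (not_le.1 hlt).le⟩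
      have h5 := S.en_grow ha0.le h0 h4
      have h6 := S.en_le A z n φ
      have h7 : β ^ (2 : ℝ) ≤ (1 + a) ^ n := by
        have h8 : k * Real.log β ≤ n := by rw [hn]; exact Nat.le_ceil _
        have h9 : β ^ (2 : ℝ) = Real.exp (Real.log (1 + a) * (k * Real.log β)) := by
          rw [Real.rpow_def_of_pos hβ0, hk]
          congr 1
          field_simp
        rw [h9]
        have h10 : (1 + a) ^ n = Real.exp (Real.log (1 + a) * n) := by
          rw [mul_comm, Real.exp_nat_mul, Real.exp_log (by linarith)]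
        rw [h10]
        exact Real.exp_le_exp.2 (mul_le_mul_of_nonneg_left h8 hla.le)
      have h8 : β ≤ β ^ (2 : ℝ) * (β⁻¹ * β ^ (2 * e1)) := by
        have h9 : β ^ (2 : ℝ) * (β⁻¹ * β ^ (2 * e1)) = β * β ^ (2 * e1) := by
          have : β ^ (2 : ℝ) = β * β := by
            rw [show (2 : ℝ) = 1 + 1 by norm_num, Real.rpow_add hβ0, Real.rpow_one]
          rw [this]
          field_simp
        rw [h9]
        have h10 : 1 ≤ β ^ (2 * e1) := Real.one_le_rpow hβ1 (by linarith)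
        nlinarith
      have h9 : β ^ (2 : ℝ) * (β⁻¹ * β ^ (2 * e1)) ≤ (1 + a) ^ n * (β⁻¹ * β ^ (2 * e1)) :=
        mul_le_mul_of_nonneg_right h7
          (mul_nonneg (inv_nonneg.2 hβ0.le) (Real.rpow_nonneg hβ0.le _))
      have h10 : c.Cg * ((n : ℝ) + 1) ^ c.Dg * c.nm ^ 2 ≤ c.Cg * c.nm ^ 2 * ((n : ℝ) + 2) ^ c.Dg := by
        calc c.Cg * ((n : ℝ) + 1) ^ c.Dg * c.nm ^ 2 ≤ c.Cg * ((n : ℝ) + 2) ^ c.Dg * c.nm ^ 2 := by
              gcongr
              norm_num
          _ = _ := by ring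
      have h11 : 2 * (c.Cg * c.nm ^ 2 * ((n : ℝ) + 2) ^ c.Dg) ≤ β := by
        have a1' := a1
        rw [Real.rpow_one] at a1'
        refine le_trans (le_of_eq ?_) a1'
        ring
      have h12 : 0 < c.Cg * c.nm ^ 2 * ((n : ℝ) + 2) ^ c.Dg := by positivity
      have h14 := h11.trans ((((h8.trans h9).trans h5).trans h6).trans h10)
      clear h11 h10 h9 h8 h7 h6 h5
      generalize c.Cg * c.nm ^ 2 * ((n : ℝ) + 2) ^ c.Dg = X' at h12 h14
      linarith
    · have h1 : ind (fun φ : ι → K => β ^ (-1 / 2 + e1) < S.nrm (φ z)) φ = 0 := if_neg hbad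
      rw [h1]
      exact zero_le
  calc ev ν (S.w β) A (ind fun φ => β ^ (-1 / 2 + e1) < S.nrm (φ z)) ψ
      ≤ ev ν (S.w β) A (fun φ => ∑ r ∈ Finset.range n, ind (Ev r) φ) ψ := ev_mono' hw hun
    _ = ∑ r ∈ Finset.range n, ev ν (S.w β) A (ind (Ev r)) ψ := ev_sum hw _ mEv ψ
    _ ≤ ∑ r ∈ Finset.range n, ENNReal.ofReal (Real.exp X) := by
        refine Finset.sum_le_sum fun r hr => ?_
        rw [← ev_ev hw (W := S.Bl A z r) (Finset.filter_subset _ _) (mEv r)]
        refine (ev_mono' hw (g := fun _ => ENNReal.ofReal (Real.exp X))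
          fun φ hφ => key r (Finset.mem_range.1 hr) φ hφ).trans (le_of_eq ?_)
        exact ev_const hw fun φ _ => rfl
    _ = n * ENNReal.ofReal (Real.exp X) := by rw [Finset.sum_const, Finset.card_range, nsmul_eq_mul]
    _ ≤ ENNReal.ofReal (Real.exp n) * ENNReal.ofReal (Real.exp X) := by
        gcongr
        rw [← ENNReal.ofReal_natCast]
        refine ENNReal.ofReal_le_ofReal ?_
        have := Real.add_one_le_exp (n : ℝ)
        linarith
    _ = ENNReal.ofReal (Real.exp (n + X)) := by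
        rw [← ENNReal.ofReal_mul (Real.exp_pos _).le, ← Real.exp_add]
    _ ≤ _ := by
        refine ENNReal.ofReal_le_ofReal (Real.exp_le_exp.2 ?_)
        rw [hX]
        have p0 : 0 ≤ β ^ (2 * e0) := Real.rpow_nonneg hβ0.le _
        have p1 : 0 ≤ β ^ e0 := Real.rpow_nonneg hβ0.le _
        have p2 : 0 ≤ c.c0 / 8 := by positivity
        have g1 : c.C0 * (c.Cg * ((n : ℝ) + 2) ^ c.Dg) * β ^ (2 * e0) ≤ c.c0 / 8 * β ^ (2 * e1) := by
          have h1 := mul_le_mul_of_nonneg_right (mul_le_mul_of_nonneg_left a2 p2) p0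
          have h2 : β ^ (2 * (e1 - e0)) * β ^ (2 * e0) = β ^ (2 * e1) := by
            rw [← Real.rpow_add hβ0]; congr 1; ring
          refine le_trans (le_of_eq ?_) (h1.trans (le_of_eq ?_))
          · field_simp
          · rw [← h2]; ring
        have g2 : c.Cg * ((n : ℝ) + 2) ^ c.Dg * β ^ e0 ≤ c.c0 / 8 * β ^ (2 * e1) := by
          have h1 := mul_le_mul_of_nonneg_right (mul_le_mul_of_nonneg_left a3 p2) p1
          have h2 : β ^ (e1 - e0) * β ^ e0 = β ^ e1 := by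
            rw [← Real.rpow_add hβ0]; congr 1; ring
          have h3 : c.c0 / 8 * β ^ e1 ≤ c.c0 / 8 * β ^ (2 * e1) :=
            mul_le_mul_of_nonneg_left (Real.rpow_le_rpow_of_exponent_le hβ1 (by linarith)) p2
          refine le_trans (le_of_eq ?_) ((h1.trans (le_of_eq ?_)).trans h3)
          · field_simp
          · rw [← h2]; ring
        have g3 : (n : ℝ) ≤ c.c0 / 8 * β ^ (2 * e1) := by
          have h1 := mul_le_mul_of_nonneg_left a5 p2
          rw [pow_one] at h1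
          have h2 : c.c0 / 8 * (8 / c.c0 * ((n : ℝ) + 2)) = (n : ℝ) + 2 := by field_simp
          rw [h2] at h1
          linarith
        have g4 : β ^ e1 ≤ c.c0 / 8 * β ^ (2 * e1) := by
          have h1 := mul_le_mul_of_nonneg_left a6 p2
          have h2 : c.c0 / 8 * (8 / c.c0 * β ^ e1) = β ^ e1 := by field_simp
          rwa [h2] at h1
        linarith

end

end Pool.Agent.N990.Mach
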