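import Mathlib

/-!
# Conditional expectations of a finite volume Gibbs measure

`w` is a positive weight on configurations `ι → E`; `ev ν w V f ψ` is the conditional expectation of
`f` given the configuration `ψ` outside the finite set `V`.
-/

set_option autoImplicit false
set_option linter.unusedSectionVars false

open MeasureTheory Finset Function
open scoped ENNReal

namespace Pool.Agent.N986.PB

noncomputable section

variable {ι : Type*} [DecidableEq ι] {E : Type*} [MeasurableSpace E]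

/-- The integral over the variables in `V`. -/
def In (ν : Measure E) (V : Finset ι) (f : (ι → E) → ℝ≥0∞) : (ι → E) → ℝ≥0∞ :=
  lmarginal (fun _ : ι => ν) V f

/-- The conditional expectation of `f` given the variables outside `V`. -/
def ev (ν : Measure E) (w : (ι → E) → ℝ≥0∞) (V : Finset ι) (f : (ι → E) → ℝ≥0∞)
    (ψ : ι → E) : ℝ≥0∞ :=
  In ν V (fun φ => w φ * f φ) ψ / In ν V w ψ

/-- The weight is measurable, positive and finite together with all its integrals. -/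
structure Good (ν : Measure E) (w : (ι → E) → ℝ≥0∞) : Prop where
  meas : Measurable w
  pos : ∀ V ψ, In ν V w ψ ≠ 0
  fin : ∀ V ψ, In ν V w ψ ≠ ∞

variable {ν : Measure E} [SigmaFinite ν] {w : (ι → E) → ℝ≥0∞}

section basic

omit [SigmaFinite ν] in
lemma In_mono {V : Finset ι} {f g : (ι → E) → ℝ≥0∞} (h : ∀ φ, f φ ≤ g φ) (ψ : ι → E) :
    In ν V f ψ ≤ In ν V g ψ := lmarginal_mono (fun φ => h φ) ψ

omit [SigmaFinite ν] in
/-- comparison of integrands on configurations which coincide with `ψ` outside `V` -/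
lemma In_mono' {V : Finset ι} {f g : (ι → E) → ℝ≥0∞} {ψ : ι → E}
    (h : ∀ φ, (∀ i ∉ V, φ i = ψ i) → f φ ≤ g φ) : In ν V f ψ ≤ In ν V g ψ := by
  unfold In lmarginal
  refine lintegral_mono fun y => h _ fun i hi => ?_
  simp [Function.updateFinset_def, hi]

omit [SigmaFinite ν] in
lemma In_congr' {V : Finset ι} {f g : (ι → E) → ℝ≥0∞} {ψ : ι → E}
    (h : ∀ φ, (∀ i ∉ V, φ i = ψ i) → f φ = g φ) : In ν V f ψ = In ν V g ψ :=
  le_antisymm (In_mono' fun φ hφ => (h φ hφ).le) (In_mono' fun φ hφ => (h φ hφ).ge)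

lemma In_meas {V : Finset ι} {f : (ι → E) → ℝ≥0∞} (hf : Measurable f) : Measurable (In ν V f) :=
  Measurable.lmarginal _ hf

omit [SigmaFinite ν] in
lemma In_congr {V : Finset ι} {ψ ψ' : ι → E} (f : (ι → E) → ℝ≥0∞) (h : ∀ i ∉ V, ψ i = ψ' i) :
    In ν V f ψ = In ν V f ψ' := lmarginal_congr _ f h

lemma In_union {V W : Finset ι} (hVW : Disjoint V W) {f : (ι → E) → ℝ≥0∞} (hf : Measurable f)
    (ψ : ι → E) : In ν (V ∪ W) f ψ = In ν V (In ν W f) ψ := by
  unfold In
  rw [lmarginal_union _ f hf hVW]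

lemma In_erase {V : Finset ι} {z : ι} (hz : z ∈ V) {f : (ι → E) → ℝ≥0∞} (hf : Measurable f)
    (ψ : ι → E) : In ν V f ψ = ∫⁻ s, In ν (V.erase z) f (update ψ z s) ∂ν :=
  lmarginal_erase f hf hz ψ

omit [SigmaFinite ν] in
lemma In_mul_left {V : Finset ι} {f g : (ι → E) → ℝ≥0∞} (hf : Measurable f) {ψ : ι → E} {c : ℝ≥0∞}
    (h : ∀ φ, (∀ i ∉ V, φ i = ψ i) → g φ = c) : In ν V (fun φ => g φ * f φ) ψ = c * In ν V f ψ := by
  rw [In_congr' (g := fun φ => c * f φ) fun φ hφ => by rw [h φ hφ]]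
  unfold In lmarginal
  rw [lintegral_const_mul]
  exact hf.comp measurable_updateFinset

end basic

section ev

variable (hw : Good ν w)
include hw

omit [SigmaFinite ν] in
lemma ev_mono' {V : Finset ι} {f g : (ι → E) → ℝ≥0∞} {ψ : ι → E}
    (h : ∀ φ, (∀ i ∉ V, φ i = ψ i) → f φ ≤ g φ) : ev ν w V f ψ ≤ ev ν w V g ψ :=
  ENNReal.div_le_div_right (In_mono' fun φ hφ => mul_le_mul_right (h φ hφ) _) _

omit [SigmaFinite ν] in
lemma ev_mono {V : Finset ι} {f g : (ι → E) → ℝ≥0∞} {ψ : ι → E}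
    (h : ∀ φ, f φ ≤ g φ) : ev ν w V f ψ ≤ ev ν w V g ψ := ev_mono' hw fun φ _ => h φ

omit [SigmaFinite ν] in
lemma ev_congr' {V : Finset ι} {f g : (ι → E) → ℝ≥0∞} {ψ : ι → E}
    (h : ∀ φ, (∀ i ∉ V, φ i = ψ i) → f φ = g φ) : ev ν w V f ψ = ev ν w V g ψ :=
  le_antisymm (ev_mono' hw fun φ hφ => (h φ hφ).le) (ev_mono' hw fun φ hφ => (h φ hφ).ge)

omit [SigmaFinite ν] hw in
lemma ev_congr {V : Finset ι} {ψ ψ' : ι → E} (f : (ι → E) → ℝ≥0∞) (h : ∀ i ∉ V, ψ i = ψ' i) :
    ev ν w V f ψ = ev ν w V f ψ' := by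
  unfold ev
  rw [In_congr _ h, In_congr _ h]

lemma ev_meas {V : Finset ι} {f : (ι → E) → ℝ≥0∞} (hf : Measurable f) :
    Measurable (ev ν w V f) := by
  unfold ev
  exact (In_meas (hw.meas.mul hf)).div (In_meas hw.meas)

omit [SigmaFinite ν] in
lemma ev_one (V : Finset ι) (ψ : ι → E) : ev ν w V (fun _ => 1) ψ = 1 := by
  unfold ev
  simp only [mul_one]
  exact ENNReal.div_self (hw.pos V ψ) (hw.fin V ψ)

omit [SigmaFinite ν] in
lemma ev_const_mul {V : Finset ι} {f g : (ι → E) → ℝ≥0∞} (hf : Measurable f) {ψ : ι → E} {c : ℝ≥0∞}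
    (h : ∀ φ, (∀ i ∉ V, φ i = ψ i) → g φ = c) :
    ev ν w V (fun φ => g φ * f φ) ψ = c * ev ν w V f ψ := by
  unfold ev
  rw [show (fun φ => w φ * (g φ * f φ)) = fun φ => g φ * (w φ * f φ) from by
    funext φ; ring, In_mul_left (f := fun φ => w φ * f φ) (hw.meas.mul hf) h, mul_div_assoc]

omit [SigmaFinite ν] in
lemma ev_const {V : Finset ι} {f : (ι → E) → ℝ≥0∞} {ψ : ι → E} {c : ℝ≥0∞}
    (h : ∀ φ, (∀ i ∉ V, φ i = ψ i) → f φ = c) : ev ν w V f ψ = c := by
  have := ev_const_mul hw (f := fun _ => 1) measurable_const (g := f) h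
  rw [ev_one hw, mul_one] at this
  simpa using this

omit [SigmaFinite ν] in
lemma ev_le_one {V : Finset ι} {f : (ι → E) → ℝ≥0∞} {ψ : ι → E} (h : ∀ φ, f φ ≤ 1) :
    ev ν w V f ψ ≤ 1 := (ev_mono hw h).trans (ev_one hw V ψ).le

omit [SigmaFinite ν] in
lemma ev_add {V : Finset ι} {f g : (ι → E) → ℝ≥0∞} (hf : Measurable f) (ψ : ι → E) :
    ev ν w V (fun φ => f φ + g φ) ψ = ev ν w V f ψ + ev ν w V g ψ := by
  unfold ev In lmarginal
  simp only [mul_add]
  rw [lintegral_add_left, ENNReal.add_div]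
  exact (hw.meas.mul hf).comp measurable_updateFinset

omit [SigmaFinite ν] in
lemma ev_sum {V : Finset ι} {κ : Type*} (s : Finset κ) {f : κ → (ι → E) → ℝ≥0∞}
    (hf : ∀ k, Measurable (f k)) (ψ : ι → E) :
    ev ν w V (fun φ => ∑ k ∈ s, f k φ) ψ = ∑ k ∈ s, ev ν w V (f k) ψ := by
  classical
  induction s using Finset.induction_on with
  | empty =>
    simp only [Finset.sum_empty]
    exact ev_const hw fun φ _ => rfl
  | insert a s ha ih =>
    simp only [Finset.sum_insert ha]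
    rw [ev_add hw (hf a), ih]

lemma In_mul_ev {V : Finset ι} {f : (ι → E) → ℝ≥0∞} (ψ : ι → E) :
    In ν V (fun φ => w φ * f φ) ψ = In ν V w ψ * ev ν w V f ψ := by
  unfold ev
  rw [ENNReal.mul_div_cancel (hw.pos V ψ) (hw.fin V ψ)]

/-- consistency -/
lemma ev_ev {V W : Finset ι} (h : W ⊆ V) {f : (ι → E) → ℝ≥0∞} (hf : Measurable f) (ψ : ι → E) :
    ev ν w V (ev ν w W f) ψ = ev ν w V f ψ := by
  have hd : Disjoint (V \ W) W := Finset.sdiff_disjoint
  have hV : V = (V \ W) ∪ W := (Finset.sdiff_union_of_subset h).symm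
  unfold ev
  congr 1
  have hm : Measurable fun φ => w φ * f φ := hw.meas.mul hf
  rw [hV, In_union hd hm, In_union hd]
  · congr 1
    funext φ
    have h1 : In ν W (fun φ => In ν W (fun φ => w φ * f φ) φ / In ν W w φ * w φ) φ =
        In ν W (fun φ => w φ * f φ) φ / In ν W w φ * In ν W w φ :=
      In_mul_left hw.meas fun φ' hφ' => by rw [In_congr _ hφ', In_congr _ hφ']
    simp only [mul_comm (w _) (_ / _)]
    rw [h1, ENNReal.div_mul_cancel (hw.pos W φ) (hw.fin W φ)]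
  · exact hw.meas.mul ((In_meas hm).div (In_meas hw.meas))

/-- The density of the variable at `z`. -/
def dn (ν : Measure E) (w : (ι → E) → ℝ≥0∞) (V : Finset ι) (z : ι) (ψ : ι → E) (s : E) : ℝ≥0∞ :=
  In ν (V.erase z) w (update ψ z s) / In ν V w ψ

lemma dn_meas {V : Finset ι} {z : ι} (ψ : ι → E) : Measurable (dn ν w V z ψ) := by
  unfold dn
  exact ((In_meas hw.meas).comp (measurable_update ψ)).div measurable_const

/-- disintegration with respect to the variable at `z` -/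
lemma ev_erase {V : Finset ι} {z : ι} (hz : z ∈ V) {f : (ι → E) → ℝ≥0∞} (hf : Measurable f)
    (ψ : ι → E) : ev ν w V f ψ = ∫⁻ s, dn ν w V z ψ s * ev ν w (V.erase z) f (update ψ z s) ∂ν := by
  have h1 : ∀ s, dn ν w V z ψ s * ev ν w (V.erase z) f (update ψ z s) =
      In ν (V.erase z) (fun φ => w φ * f φ) (update ψ z s) * (In ν V w ψ)⁻¹ := by
    intro s
    unfold dn
    rw [In_mul_ev hw, ENNReal.div_eq_inv_mul]
    ring
  simp_rw [h1]
  have hm : Measurable fun φ => w φ * f φ := hw.meas.mul hf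
  have hm2 : Measurable fun s => In ν (V.erase z) (fun φ => w φ * f φ) (update ψ z s) :=
    (In_meas hm).comp (measurable_update ψ)
  rw [lintegral_mul_const _ hm2, ← In_erase hz hm]
  rfl

lemma dn_lint {V : Finset ι} {z : ι} (hz : z ∈ V) (ψ : ι → E) : ∫⁻ s, dn ν w V z ψ s ∂ν = 1 := by
  have h := ev_erase hw hz (f := fun _ => 1) measurable_const ψ
  simp only [ev_one hw, mul_one] at h
  exact h.symm

end ev

end

end Pool.Agent.N986.PB
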