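import Pool.Agent.N986.PB.Expl

/-!
# Estimate of the path sum
-/

set_option autoImplicit false
set_option linter.unusedSectionVars false
set_option linter.unusedVariables false

open MeasureTheory Finset Function
open scoped ENNReal Classical

namespace Pool.Agent.N986.PB

noncomputable section

variable {ι : Type*} {E : Type*} [MeasurableSpace E] (d : ι → ι → ℕ) (R : ℕ) (A : Finset ι)

/-- the path sum depends only on the weights in `W` -/
lemma hp_congr {u u' : ι → ℝ≥0∞} (k : ℕ) : ∀ {W : Finset ι} (_ : ∀ z ∈ W, u z = u' z) (F : Set ι),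
    hp d R A u k W F = hp d R A u' k W F := by
  induction k with
  | zero => intro W _ F; rfl
  | succ k ih =>
    intro W h F
    unfold hp
    refine Finset.sum_congr rfl fun z hz => ?_
    rw [h z (Finset.mem_filter.1 hz).1,
      ih (W := off d R W z) (fun z' hz' => h z' (Finset.mem_filter.1 hz').1)]

/-- expectation of the path sum -/
lemma ev_hp {ν : Measure E} [SigmaFinite ν] {w : (ι → E) → ℝ≥0∞} (hw : Good ν w)
    {VG : Set E} (hVG : MeasurableSet VG) {ε ε₁ : ℝ≥0∞} {V W₀ : Finset ι} {B : ι → Finset ι}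
    (hBV : ∀ z ∈ W₀, B z ⊆ V) (hBR : ∀ z ∈ W₀, ∀ v ∈ B z, d v z ≤ R)
    (hbad : ∀ z ∈ W₀, ∀ ψ, ev ν w (B z) (fun φ => VGᶜ.indicator 1 (φ z)) ψ ≤ ε₁) (k : ℕ) :
    ∀ {W : Finset ι} (_ : W ⊆ W₀) (F : Set ι) (ψ : ι → E),
      ev ν w V (fun φ => hp d R A (fun z => uu VG ε (φ z)) k W F) ψ ≤
        hp d R A (fun _ => ε₁ + ε) k W F := by
  induction k with
  | zero =>
    intro W _ F ψ
    unfold hp
    rw [ev_const hw fun φ _ => rfl]
  | succ k ih =>
    intro W hW F ψ
    unfold hp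
    have mu : ∀ z, Measurable fun φ : ι → E => uu VG ε (φ z) := fun z =>
      (uu_meas hVG ε).comp (measurable_pi_apply z)
    have mh : ∀ z, Measurable fun φ : ι → E =>
        hp d R A (fun z => uu VG ε (φ z)) k (off d R W z) {z} := fun z =>
      hp_meas d R A mu k _ _
    rw [ev_sum hw _ fun z => mm (mu z) (mh z)]
    refine Finset.sum_le_sum fun z hz => ?_
    have hzW : z ∈ W := (Finset.mem_filter.1 hz).1
    have hoff : off d R W z ⊆ W₀ := (Finset.filter_subset _ _).trans hW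
    have h1 : ∀ χ : ι → E, ev ν w (B z) (fun φ => uu VG ε (φ z) *
        hp d R A (fun z => uu VG ε (φ z)) k (off d R W z) {z}) χ ≤
        (ε₁ + ε) * hp d R A (fun z => uu VG ε (χ z)) k (off d R W z) {z} := by
      intro χ
      have h2 : (fun φ : ι → E => uu VG ε (φ z) *
          hp d R A (fun z => uu VG ε (φ z)) k (off d R W z) {z}) =
          fun φ => hp d R A (fun z => uu VG ε (φ z)) k (off d R W z) {z} * uu VG ε (φ z) := by
        funext φ; ring
      rw [h2, ev_const_mul hw (mu z)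
        (c := hp d R A (fun z => uu VG ε (χ z)) k (off d R W z) {z}), mul_comm]
      · refine mul_le_mul_left ?_ _
        unfold uu
        have m1 : Measurable fun φ : ι → E => VGᶜ.indicator (1 : E → ℝ≥0∞) (φ z) :=
          (measurable_one.indicator hVG.compl).comp (measurable_pi_apply z)
        rw [ev_add hw m1]
        refine add_le_add (hbad z (hW hzW) χ) (le_of_eq ?_)
        exact ev_const hw fun φ _ => rfl
      · intro φ hφ
        refine hp_congr d R A k (fun z' hz' => ?_) {z}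
        have h3 := (Finset.mem_filter.1 hz').2
        rw [hφ z' fun h4 => absurd (hBR z (hW hzW) z' h4) (by omega)]
    calc ev ν w V (fun φ => uu VG ε (φ z) *
          hp d R A (fun z => uu VG ε (φ z)) k (off d R W z) {z}) ψ
        = ev ν w V (ev ν w (B z) fun φ => uu VG ε (φ z) *
          hp d R A (fun z => uu VG ε (φ z)) k (off d R W z) {z}) ψ :=
          (ev_ev hw (hBV z (hW hzW)) (mm (mu z) (mh z)) ψ).symm
      _ ≤ ev ν w V (fun φ => (ε₁ + ε) *
          hp d R A (fun z => uu VG ε (φ z)) k (off d R W z) {z}) ψ := ev_mono hw h1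
      _ = (ε₁ + ε) * ev ν w V (fun φ =>
          hp d R A (fun z => uu VG ε (φ z)) k (off d R W z) {z}) ψ :=
          ev_const_mul hw (mh z) fun φ _ => rfl
      _ ≤ _ := mul_le_mul_right (ih hoff {z} ψ) _

/-- reversed counting -/
def cc (q : ℝ≥0∞) (W₀ : Finset ι) : ℕ → ι → ℝ≥0∞
  | 0, y => if ∃ a ∈ A, d a y ≤ R + 1 then 1 else 0
  | k + 1, y => ∑ z ∈ W₀.filter (fun z => d z y ≤ R + 1), q * cc q W₀ k z

lemma hp_le_cc (q : ℝ≥0∞) (W₀ : Finset ι) (k : ℕ) : ∀ {W : Finset ι} (_ : W ⊆ W₀) (y : ι),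
    hp d R A (fun _ => q) k W {y} ≤ cc d R A q W₀ k y := by
  induction k with
  | zero =>
    intro W _ y
    unfold hp cc
    simp only [Set.mem_singleton_iff, exists_eq_left]
    exact le_rfl
  | succ k ih =>
    intro W hW y
    unfold hp cc
    simp only [Set.mem_singleton_iff, exists_eq_left]
    exact (Finset.sum_le_sum fun z _ => mul_le_mul_right
      (ih ((Finset.filter_subset _ _).trans hW) z) _).trans
      (Finset.sum_le_sum_of_subset (Finset.filter_subset_filter _ hW))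

lemma sum_cc (q : ℝ≥0∞) (W₀ : Finset ι) {N : ℕ}
    (hN : ∀ z, (W₀.filter fun y => d z y ≤ R + 1).card ≤ N) (k : ℕ) :
    ∑ y ∈ W₀, cc d R A q W₀ k y ≤ A.card * N * (q * N) ^ k := by
  induction k with
  | zero =>
    unfold cc
    rw [pow_zero, mul_one]
    calc ∑ y ∈ W₀, (if ∃ a ∈ A, d a y ≤ R + 1 then (1 : ℝ≥0∞) else 0)
        ≤ ∑ y ∈ W₀, ∑ a ∈ A, if d a y ≤ R + 1 then (1 : ℝ≥0∞) else 0 := by
          refine Finset.sum_le_sum fun y _ => ?_
          split_ifs with h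
          · obtain ⟨a, ha, hay⟩ := h
            refine le_trans (le_of_eq ?_) (Finset.single_le_sum
              (f := fun a => if d a y ≤ R + 1 then (1 : ℝ≥0∞) else 0) (fun _ _ => zero_le) ha)
            rw [if_pos hay]
          · exact zero_le
      _ = ∑ a ∈ A, ∑ y ∈ W₀, if d a y ≤ R + 1 then (1 : ℝ≥0∞) else 0 := Finset.sum_comm
      _ ≤ ∑ a ∈ A, (N : ℝ≥0∞) := by
          refine Finset.sum_le_sum fun a _ => ?_
          rw [← Finset.sum_filter, Finset.sum_const, nsmul_eq_mul, mul_one]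
          exact_mod_cast hN a
      _ = _ := by rw [Finset.sum_const, nsmul_eq_mul]
  | succ k ih =>
    have h1 : ∑ y ∈ W₀, cc d R A q W₀ (k + 1) y =
        ∑ z ∈ W₀, (W₀.filter fun y => d z y ≤ R + 1).card * (q * cc d R A q W₀ k z) := by
      have h0 : ∀ y, cc d R A q W₀ (k + 1) y =
          ∑ z ∈ W₀, if d z y ≤ R + 1 then q * cc d R A q W₀ k z else 0 := fun y => by
        rw [← Finset.sum_filter]; rfl
      simp_rw [h0]
      rw [Finset.sum_comm]
      refine Finset.sum_congr rfl fun z _ => ?_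
      rw [← Finset.sum_filter, Finset.sum_const, nsmul_eq_mul]
    rw [h1]
    calc _ ≤ ∑ z ∈ W₀, (N : ℝ≥0∞) * (q * cc d R A q W₀ k z) := by
          refine Finset.sum_le_sum fun z _ => mul_le_mul_left ?_ _
          exact_mod_cast hN z
      _ = q * N * ∑ z ∈ W₀, cc d R A q W₀ k z := by
          rw [Finset.mul_sum]
          exact Finset.sum_congr rfl fun z _ => by ring
      _ ≤ q * N * (A.card * N * (q * N) ^ k) := mul_le_mul_right ih _
      _ = _ := by rw [pow_succ]; ring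

/-- long paths -/
lemma hp_zero_of_far (dsymm : ∀ a b, d a b = d b a) (dtri : ∀ a b c, d a c ≤ d a b + d b c)
    (u : ι → ℝ≥0∞) (k : ℕ) : ∀ (W : Finset ι) (F : Set ι)
    (_ : ∀ a ∈ A, ∀ y ∈ F, (k + 1) * (R + 1) < d a y), hp d R A u k W F = 0 := by
  induction k with
  | zero =>
    intro W F h
    unfold hp
    rw [if_neg]
    rintro ⟨a, ha, y, hy, hay⟩
    have := h a ha y hy
    omega
  | succ k ih =>
    intro W F h
    unfold hp
    refine Finset.sum_eq_zero fun z hz => ?_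
    obtain ⟨-, y, hy, hzy⟩ := Finset.mem_filter.1 hz
    rw [ih, mul_zero]
    intro a ha z' hz'
    rw [Set.mem_singleton_iff] at hz'
    subst hz'
    have h1 := h a ha y hy
    have h2 := dtri a z' y
    have h3 : (k + 1 + 1) * (R + 1) = (k + 1) * (R + 1) + (R + 1) := by ring
    omega

lemma hp_le (q : ℝ≥0∞) {W : Finset ι} {N : ℕ}
    (hN : ∀ z, (W.filter fun y => d z y ≤ R + 1).card ≤ N) (k : ℕ) (F : Set ι) :
    hp d R A (fun _ => q) (k + 1) W F ≤ A.card * (q * N) ^ (k + 1) := by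
  unfold hp
  calc _ ≤ ∑ z ∈ W, q * cc d R A q W k z := by
        refine (Finset.sum_le_sum fun z _ => mul_le_mul_right
          (hp_le_cc d R A q W k (Finset.filter_subset _ _) z) _).trans
          (Finset.sum_le_sum_of_subset (Finset.filter_subset _ _))
    _ = q * ∑ z ∈ W, cc d R A q W k z := by rw [Finset.mul_sum]
    _ ≤ q * (A.card * N * (q * N) ^ k) := mul_le_mul_right (sum_cc d R A q W hN k) _
    _ = _ := by rw [pow_succ]; ring

/-- **Decay of the influence of the boundary condition.** -/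
theorem decay {ν : Measure E} [SigmaFinite ν] {w : (ι → E) → ℝ≥0∞} (hw : Good ν w) {Λ : Finset ι}
    {VG : Set E} (hVG : MeasurableSet VG) {ε ε₁ : ℝ≥0∞} (hε : ε ≤ 1)
    (dself : ∀ a, d a a = 0) (dsymm : ∀ a b, d a b = d b a) (dtri : ∀ a b c, d a c ≤ d a b + d b c)
    (hM : Markov d ν w Λ) (hR : Ratio d ν w Λ R VG ε) {V : Finset ι} {F : Set ι} (hVΛ : V ⊆ Λ)
    (hFV : ∀ y ∈ F, y ∉ V) {B : ι → Finset ι}
    (hBV : ∀ z ∈ far d R V F, B z ⊆ V) (hBR : ∀ z ∈ far d R V F, ∀ v ∈ B z, d v z ≤ R)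
    (hbad : ∀ z ∈ far d R V F, ∀ ψ, ev ν w (B z) (fun φ => VGᶜ.indicator 1 (φ z)) ψ ≤ ε₁) {N : ℕ}
    (hN : ∀ z, (V.filter fun y => d z y ≤ R + 1).card ≤ N) (hq : (ε₁ + ε) * N ≤ 1 / 2)
    {k₀ : ℕ} (hk₀ : 1 ≤ k₀) (hAF : ∀ a ∈ A, ∀ y ∈ F, k₀ * (R + 1) < d a y)
    {f : (ι → E) → ℝ≥0∞} (hf : Measurable f) (hf1 : ∀ φ, f φ ≤ 1)
    (hfA : ∀ φ φ' : ι → E, (∀ a ∈ A, φ a = φ' a) → f φ = f φ') (ψ ψ' : ι → E)
    (hag : ∀ y, y ∉ V → y ∉ F → ψ y = ψ' y ∧ ψ y ∈ VG) :
    ev ν w V f ψ ≤ ev ν w V f ψ' + 2 * A.card * ((ε₁ + ε) * N) ^ k₀ := by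
  refine (expl d R A hw hVG hε dself dsymm dtri hM hR hf hf1 hfA V.card V F ψ ψ' rfl hVΛ hFV
    hag).trans (add_le_add le_rfl ?_)
  obtain ⟨q, hqd⟩ : ∃ q, q = (ε₁ + ε) * (N : ℝ≥0∞) := ⟨_, rfl⟩
  have mu : ∀ z, Measurable fun φ : ι → E => uu VG ε (φ z) := fun z =>
    (uu_meas hVG ε).comp (measurable_pi_apply z)
  have h1 : ev ν w V (ps d R A VG ε (far d R V F) F) ψ =
      ∑' k, ev ν w V (fun φ => hp d R A (fun z => uu VG ε (φ z)) k (far d R V F) F) ψ := by
    unfold ps hs ev In lmarginal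
    simp_rw [← ENNReal.tsum_mul_left]
    rw [lintegral_tsum, div_eq_mul_inv, ← ENNReal.tsum_mul_right]
    · rfl
    · intro k
      have := mm hw.meas (hp_meas d R A mu k (far d R V F) F)
      exact (this.comp measurable_updateFinset).aemeasurable
  rw [h1]
  have hN' : ∀ z, ((far d R V F).filter fun y => d z y ≤ R + 1).card ≤ N := fun z =>
    (Finset.card_le_card (Finset.filter_subset_filter _ (Finset.filter_subset _ _))).trans (hN z)
  have h2 : ∀ k, ev ν w V (fun φ => hp d R A (fun z => uu VG ε (φ z)) k (far d R V F) F) ψ ≤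
      if k < k₀ then 0 else A.card * q ^ k := by
    intro k
    refine (ev_hp d R A hw hVG hBV hBR hbad k subset_rfl F ψ).trans ?_
    split_ifs with hk
    · rw [hp_zero_of_far d R A dsymm dtri _ k _ F]
      intro a ha y hy
      refine lt_of_le_of_lt ?_ (hAF a ha y hy)
      exact Nat.mul_le_mul_right _ hk
    · obtain ⟨j, rfl⟩ : ∃ j, k = j + 1 := ⟨k - 1, by omega⟩
      rw [hqd]
      exact hp_le d R A _ hN' j F
  refine (ENNReal.tsum_le_tsum h2).trans ?_
  have h3 : ∑' k, (if k < k₀ then (0 : ℝ≥0∞) else A.card * q ^ k) =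
      ∑' j, (A.card : ℝ≥0∞) * q ^ (j + k₀) := by
    obtain ⟨g, hg⟩ : ∃ g : ℕ → ℝ≥0∞, g = fun k => if k < k₀ then (0 : ℝ≥0∞) else A.card * q ^ k :=
      ⟨_, rfl⟩
    have h31 : ∑ i ∈ Finset.range k₀, g i = 0 := Finset.sum_eq_zero fun i hi => by
      rw [hg]; exact if_pos (Finset.mem_range.1 hi)
    have h32 := ENNReal.summable.sum_add_tsum_nat_add' (f := g) (k := k₀)
    rw [h31, zero_add] at h32
    rw [← hg, ← h32]
    refine tsum_congr fun j => ?_
    rw [hg]
    exact if_neg (by omega)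
  rw [h3]
  have h4 : ∑' j, (A.card : ℝ≥0∞) * q ^ (j + k₀) = A.card * q ^ k₀ * (1 - q)⁻¹ := by
    rw [← ENNReal.tsum_geometric, ← ENNReal.tsum_mul_left]
    exact tsum_congr fun j => by rw [pow_add]; ring
  rw [h4, ← hqd]
  have h5 : (1 - q)⁻¹ ≤ 2 := by
    rw [ENNReal.inv_le_iff_inv_le]
    have h6 : (2 : ℝ≥0∞)⁻¹ = 1 - 2⁻¹ := by
      rw [ENNReal.one_sub_inv_two]
    rw [h6]
    refine tsub_le_tsub le_rfl ?_
    rw [hqd, ← one_div]
    exact hq
  calc (A.card : ℝ≥0∞) * q ^ k₀ * (1 - q)⁻¹ ≤ A.card * q ^ k₀ * 2 := mul_le_mul_right h5 _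
    _ = _ := by ring

end

end Pool.Agent.N986.PB
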