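import Pool.Agent.N986.PB.Expl
import Pool.Agent.N990.Mach.Props

/-!
# The machine: energy against entropy
-/

set_option autoImplicit false
set_option linter.unusedSectionVars false
set_option linter.unusedVariables false

open MeasureTheory Finset Function
open scoped ENNReal Classical
open Pool.Agent.N986.PB

namespace Pool.Agent.N990.Mach

noncomputable section

variable {ι τ K Y V : Type*} [Group K] [MeasurableSpace K]
    [NormedAddCommGroup Y] [NormedSpace ℝ Y] [NormedAddCommGroup V] [NormedSpace ℝ V]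
    {ν : Measure K} {c : Cst}

namespace Sys

variable (S : Sys ι τ K Y V ν c)

/-- the local weight of `B` -/
def wB (β : ℝ) (B : Finset ι) (φ : ι → K) : ℝ≥0∞ := ENNReal.ofReal (Real.exp (-(β * S.HA B φ)))

/-- the energy of the terms which do not touch `B` -/
def Hc (B : Finset ι) (φ : ι → K) : ℝ := ∑ t ∈ S.T \ tch S.T S.sp B, S.h t φ

lemma tch_sub (B : Finset ι) : tch S.T S.sp B ⊆ S.T := Finset.filter_subset _ _

lemma H_split (B : Finset ι) (φ : ι → K) : S.H φ = S.Hc B φ + S.HA B φ :=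
  (Finset.sum_sdiff (S.tch_sub B)).symm

lemma Hc_congr {B : Finset ι} {φ χ : ι → K} (h : ∀ i ∉ B, φ i = χ i) : S.Hc B φ = S.Hc B χ := by
  unfold Hc
  refine Finset.sum_congr rfl fun t ht => ?_
  obtain ⟨h1, h2⟩ := Finset.mem_sdiff.1 ht
  refine S.hloc t h1 φ χ fun y hy => h y fun hyB => h2 ?_
  refine Finset.mem_filter.2 ⟨h1, fun hd => ?_⟩
  exact Finset.disjoint_left.1 hd hy hyB

lemma HA_meas (B : Finset ι) : Measurable (S.HA B) :=
  Finset.measurable_fun_sum _ fun t ht => S.hmeas t (S.tch_sub B ht)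

lemma H_meas : Measurable S.H := Finset.measurable_fun_sum _ fun t ht => S.hmeas t ht

lemma wB_meas (β : ℝ) (B : Finset ι) : Measurable (S.wB β B) :=
  ENNReal.measurable_ofReal.comp (Real.measurable_exp.comp ((S.HA_meas B).const_mul β).neg)

lemma w_meas (β : ℝ) : Measurable (S.w β) :=
  ENNReal.measurable_ofReal.comp (Real.measurable_exp.comp (S.H_meas.const_mul β).neg)

lemma H_bdd : ∃ M : ℝ, ∀ φ, |S.H φ| ≤ M := by
  choose! M hM using S.hbd
  refine ⟨∑ t ∈ S.T, M t, fun φ => (Finset.abs_sum_le_sum_abs _ _).trans ?_⟩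
  exact Finset.sum_le_sum fun t ht => hM t ht φ

/-- the weight is good -/
lemma good [IsFiniteMeasure ν] (hν : ν ≠ 0) (β : ℝ) : Good ν (S.w β) := by
  obtain ⟨M, hM⟩ := S.H_bdd
  have hνu : ν Set.univ ≠ 0 := fun h => hν (Measure.measure_univ_eq_zero.1 h)
  have h1 : ∀ B ψ (c : ℝ≥0∞), In ν B (fun _ : ι → K => c) ψ = c * (ν Set.univ) ^ B.card := by
    intro B ψ c
    unfold In lmarginal
    rw [lintegral_const, Measure.pi_univ, Finset.prod_const]
    simp
  have hb : ∀ φ, |β * S.H φ| ≤ |β| * M := fun φ => by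
    rw [abs_mul]; exact mul_le_mul_of_nonneg_left (hM φ) (abs_nonneg _)
  refine ⟨S.w_meas β, fun B ψ => ?_, fun B ψ => ?_⟩
  · have h2 := In_mono (ν := ν) (V := B)
      (f := fun _ : ι → K => ENNReal.ofReal (Real.exp (-(|β| * M)))) (g := S.w β)
      (fun φ => ENNReal.ofReal_le_ofReal (Real.exp_le_exp.2 (by
        have := (abs_le.1 (hb φ)).2; linarith))) ψ
    rw [h1] at h2
    refine ne_of_gt (lt_of_lt_of_le ?_ h2)
    exact ENNReal.mul_pos (by simp [Real.exp_pos]) (pow_ne_zero _ hνu)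
  · have h2 := In_mono (ν := ν) (V := B)
      (g := fun _ : ι → K => ENNReal.ofReal (Real.exp (|β| * M))) (f := S.w β)
      (fun φ => ENNReal.ofReal_le_ofReal (Real.exp_le_exp.2 (by
        have := (abs_le.1 (hb φ)).1; linarith))) ψ
    rw [h1] at h2
    refine ne_top_of_le_ne_top ?_ h2
    exact ENNReal.mul_ne_top ENNReal.ofReal_ne_top (ENNReal.pow_ne_top (measure_ne_top ν _))

/-- only the local weight matters -/
lemma ev_local [SigmaFinite ν] (β : ℝ) (B : Finset ι) {f : (ι → K) → ℝ≥0∞} (hf : Measurable f)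
    (χ : ι → K) : ev ν (S.w β) B f χ =
      In ν B (fun φ => S.wB β B φ * f φ) χ / In ν B (S.wB β B) χ := by
  obtain ⟨k, hk⟩ : ∃ k, k = ENNReal.ofReal (Real.exp (-(β * S.Hc B χ))) := ⟨_, rfl⟩
  have hk0 : k ≠ 0 := by rw [hk]; simp [Real.exp_pos]
  have hkt : k ≠ ∞ := by rw [hk]; exact ENNReal.ofReal_ne_top
  have h1 : ∀ φ : ι → K, (∀ i ∉ B, φ i = χ i) → ENNReal.ofReal (Real.exp (-(β * S.Hc B φ))) = k :=
    fun φ hφ => by rw [hk, S.Hc_congr hφ]
  have h2 : ∀ φ, S.w β φ = ENNReal.ofReal (Real.exp (-(β * S.Hc B φ))) * S.wB β B φ := by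
    intro φ
    unfold w wB
    rw [S.H_split B, ← ENNReal.ofReal_mul (Real.exp_pos _).le, ← Real.exp_add]
    congr 2
    ring
  unfold ev
  have h4 : S.w β = fun φ => ENNReal.ofReal (Real.exp (-(β * S.Hc B φ))) * S.wB β B φ := funext h2
  simp_rw [h4]
  have h3 : (fun φ : ι → K => ENNReal.ofReal (Real.exp (-(β * S.Hc B φ))) * S.wB β B φ * f φ) =
      fun φ => ENNReal.ofReal (Real.exp (-(β * S.Hc B φ))) * (S.wB β B φ * f φ) := by
    funext φ; ring
  rw [h3, In_mul_left (f := fun φ => S.wB β B φ * f φ) (mm (S.wB_meas β B) hf) h1,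
    In_mul_left (S.wB_meas β B) h1, ENNReal.mul_div_mul_left _ _ hk0 hkt]

/-- entropy per site -/
def kap (c : Cst) (β : ℝ) : ℝ := c.C0 - Real.log c.cv + c.nv / 2 * Real.log β

/-- lower bound of the partition function -/
lemma Z_lower [IsProbabilityMeasure ν] {β : ℝ} (hβ : 1 ≤ β) {B : Finset ι} (hB : B ⊆ S.Lam)
    (χ : ι → K) : ENNReal.ofReal (Real.exp (-(β * c.C0 * ∑ y ∈ S.bd B, S.nrm (χ y) ^ 2) -
      B.card * kap c β)) ≤ In ν B (S.wB β B) χ := by
  have hβ0 : 0 < β := by linarith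
  obtain ⟨s, hs⟩ : ∃ s : ℝ, s = β ^ (-(1 / 2 : ℝ)) := ⟨_, rfl⟩
  have hs0 : 0 < s := hs ▸ Real.rpow_pos_of_pos hβ0 _
  have hs1 : s ≤ 1 := hs ▸ Real.rpow_le_one_of_one_le_of_nonpos hβ (by norm_num)
  have hs2 : s ^ 2 = β⁻¹ := by
    rw [hs, ← Real.rpow_natCast, ← Real.rpow_mul hβ0.le]
    norm_num
    exact Real.rpow_neg_one β
  obtain ⟨Gs, hGs⟩ : ∃ Gs : Set K, Gs = {g | S.nrm g ≤ s} := ⟨_, rfl⟩
  have mGs : MeasurableSet Gs := hGs ▸ measurableSet_le S.nrm_meas measurable_const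
  obtain ⟨q, hq⟩ : ∃ q : ℝ, q = Real.exp (-(β * (c.C0 * (B.card * s ^ 2 +
    ∑ y ∈ S.bd B, S.nrm (χ y) ^ 2)))) := ⟨_, rfl⟩
  -- pointwise bound
  have h1 : ∀ φ : ι → K, (∀ i ∉ B, φ i = χ i) →
      ENNReal.ofReal q * (if ∀ y ∈ B, φ y ∈ Gs then 1 else 0) ≤ S.wB β B φ := by
    intro φ hφ
    by_cases hg : ∀ y ∈ B, φ y ∈ Gs
    · rw [if_pos hg, mul_one]
      refine ENNReal.ofReal_le_ofReal ?_
      rw [hq]
      refine Real.exp_le_exp.2 (neg_le_neg (mul_le_mul_of_nonneg_left ?_ hβ0.le))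
      refine (S.upper B hB φ).trans (mul_le_mul_of_nonneg_left ?_ (by linarith [c.hC0]))
      have h2 : cl S.T S.sp B ∪ B = B ∪ S.bd B := by
        unfold bd
        rw [Finset.union_sdiff_self_eq_union, Finset.union_comm]
      rw [h2, Finset.sum_union]
      · refine add_le_add ?_ (le_of_eq ?_)
        · calc ∑ y ∈ B, S.nrm (φ y) ^ 2 ≤ ∑ y ∈ B, s ^ 2 := by
                refine Finset.sum_le_sum fun y hy => ?_
                have := hg y hy
                rw [hGs] at this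
                exact pow_le_pow_left₀ (S.nrm_nonneg _) this 2
            _ = _ := by rw [Finset.sum_const, nsmul_eq_mul]
        · refine Finset.sum_congr rfl fun y hy => ?_
          rw [hφ y (Finset.mem_sdiff.1 hy).2]
      · exact Finset.disjoint_sdiff
    · rw [if_neg hg, mul_zero]; exact zero_le
  have h3 := In_mono' (ν := ν) h1
  refine le_trans ?_ h3
  -- the integral of the indicator
  have h4 : In ν B (fun φ : ι → K => ENNReal.ofReal q * (if ∀ y ∈ B, φ y ∈ Gs then 1 else 0)) χ =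
      ENNReal.ofReal q * (ν Gs) ^ B.card := by
    unfold In lmarginal
    have h5 : ∀ y : B → K, (ENNReal.ofReal q * (if ∀ i ∈ B, updateFinset χ B y i ∈ Gs then 1 else 0) :
        ℝ≥0∞) = ENNReal.ofReal q * (Set.pi Set.univ fun _ : B => Gs).indicator 1 y := by
      intro y
      congr 1
      by_cases hy : ∀ i : B, y i ∈ Gs
      · rw [Set.indicator_of_mem (by simpa [Set.mem_pi] using hy), if_pos]
        · rfl
        · intro i hi
          simp only [Function.updateFinset_def, hi, dif_pos]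
          exact hy ⟨i, hi⟩
      · rw [Set.indicator_of_notMem (by simpa [Set.mem_pi] using hy), if_neg]
        intro h6
        refine hy fun i => ?_
        have h7 := h6 i i.2
        simpa only [Function.updateFinset_def, i.2, dif_pos, Subtype.coe_eta] using h7
    simp_rw [h5]
    rw [lintegral_const_mul _ (measurable_one.indicator (MeasurableSet.univ_pi fun _ => mGs)),
      lintegral_indicator_one (MeasurableSet.univ_pi fun _ => mGs), Measure.pi_pi,
      Finset.prod_const]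
    simp
  rw [h4]
  have h6 : ENNReal.ofReal (c.cv * s ^ c.nv) ≤ ν Gs := hGs ▸ S.vol s hs0 hs1
  have h7 : 0 < c.cv * s ^ c.nv := mul_pos c.hcv (Real.rpow_pos_of_pos hs0 _)
  calc ENNReal.ofReal (Real.exp (-(β * c.C0 * ∑ y ∈ S.bd B, S.nrm (χ y) ^ 2) -
        B.card * kap c β))
      = ENNReal.ofReal q * (ENNReal.ofReal (c.cv * s ^ c.nv)) ^ B.card := by
        rw [← ENNReal.ofReal_pow h7.le, ← ENNReal.ofReal_mul (by rw [hq]; exact (Real.exp_pos _).le)]
        congr 1
        have h8 : c.cv * s ^ c.nv = Real.exp (Real.log c.cv - c.nv / 2 * Real.log β) := by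
          rw [sub_eq_add_neg, Real.exp_add, Real.exp_log c.hcv, hs, ← Real.rpow_mul hβ0.le,
            Real.rpow_def_of_pos hβ0]
          congr 2
          ring
        rw [h8, ← Real.exp_nat_mul, hq, ← Real.exp_add]
        congr 1
        unfold kap
        have h9 : β * s ^ 2 = 1 := by rw [hs2]; exact mul_inv_cancel₀ hβ0.ne'
        have h10 : β * (c.C0 * (B.card * s ^ 2 + ∑ y ∈ S.bd B, S.nrm (χ y) ^ 2)) =
            c.C0 * B.card * (β * s ^ 2) + β * c.C0 * ∑ y ∈ S.bd B, S.nrm (χ y) ^ 2 := by ring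
        rw [h10, h9]
        ring
    _ ≤ ENNReal.ofReal q * (ν Gs) ^ B.card := by gcongr

/-- **Energy against entropy**: one step. -/
theorem step [IsProbabilityMeasure ν] {β : ℝ} (hβ : 1 ≤ β) {B : Finset ι} (hB : B ⊆ S.Lam)
    (χ : ι → K) (E : (ι → K) → Prop) (hE : Measurable (ind E)) (X : ℝ)
    (hX : ∀ φ : ι → K, (∀ i ∉ B, φ i = χ i) → E φ → X ≤ β * (c.c0 * ∑ y ∈ B, S.nrm (φ y) ^ 2)) :
    ev ν (S.w β) B (ind E) χ ≤ ENNReal.ofReal (Real.exp (-X +
      β * c.C0 * ∑ y ∈ S.bd B, S.nrm (χ y) ^ 2 + B.card * kap c β)) := by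
  have hβ0 : 0 < β := by linarith
  rw [S.ev_local β B hE χ]
  have h1 : In ν B (fun φ => S.wB β B φ * ind E φ) χ ≤ ENNReal.ofReal (Real.exp (-X)) := by
    have h2 : In ν B (fun φ => S.wB β B φ * ind E φ) χ ≤
        In ν B (fun _ : ι → K => ENNReal.ofReal (Real.exp (-X))) χ := by
      refine In_mono' fun φ hφ => ?_
      by_cases hEφ : E φ
      · have : ind E φ = 1 := if_pos hEφ
        rw [this, mul_one]
        refine ENNReal.ofReal_le_ofReal (Real.exp_le_exp.2 (neg_le_neg ((hX φ hφ hEφ).trans ?_)))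
        exact mul_le_mul_of_nonneg_left (S.coer B hB φ) hβ0.le
      · have : ind E φ = 0 := if_neg hEφ
        rw [this, mul_zero]; exact zero_le
    refine h2.trans (le_of_eq ?_)
    unfold In lmarginal
    rw [lintegral_const, measure_univ, mul_one]
  have h3 := S.Z_lower hβ hB χ
  refine (ENNReal.div_le_div h1 h3).trans (le_of_eq ?_)
  rw [← ENNReal.ofReal_div_of_pos (Real.exp_pos _), ← Real.exp_sub]
  congr 2
  ring

end Sys

end

end Pool.Agent.N990.Mach
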