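import Pool.Agent.N986.PB.Ev

/-!
# Existence of infinite volume Gibbs measures

Spins in a compact second countable space, continuous consistent energies.
-/

set_option autoImplicit false
set_option linter.unusedSectionVars false
set_option linter.unusedVariables false

open MeasureTheory Finset Function Filter Topology
open scoped ENNReal NNReal BoundedContinuousFunction

namespace Pool.Agent.N986.PB

noncomputable section

variable {ι : Type*} [DecidableEq ι] {E : Type*} [TopologicalSpace E]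

/-- Continuous consistent energies: `H M` is the energy of the variables in `M`. -/
structure Cons (H : Finset ι → (ι → E) → ℝ) : Prop where
  cont : ∀ M, Continuous (H M)
  cons : ∀ M M' : Finset ι, M ⊆ M' → ∀ φ φ' : ι → E, (∀ i ∉ M, φ i = φ' i) →
    H M' φ - H M φ = H M' φ' - H M φ'

/-- the weight -/
def gw (H : Finset ι → (ι → E) → ℝ) (M : Finset ι) (φ : ι → E) : ℝ≥0∞ :=
  ENNReal.ofReal (Real.exp (-(H M φ)))

lemma cont_upd (M : Finset ι) (ξ : ι → E) : Continuous fun y : M → E => updateFinset ξ M y := by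
  refine continuous_pi fun i => ?_
  by_cases h : i ∈ M
  · simp only [updateFinset_def, h, dif_pos]; exact continuous_apply _
  · simp only [updateFinset_def, h, dif_neg, not_false_eq_true]; exact continuous_const

lemma cont_upd' (M : Finset ι) (y : M → E) : Continuous fun ξ : ι → E => updateFinset ξ M y := by
  refine continuous_pi fun i => ?_
  by_cases h : i ∈ M
  · simp only [updateFinset_def, h, dif_pos]; exact continuous_const
  · simp only [updateFinset_def, h, dif_neg, not_false_eq_true]; exact continuous_apply _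

variable [Countable ι] [CompactSpace E] [T2Space E] [SecondCountableTopology E]
  [MeasurableSpace E] [BorelSpace E] {ν : Measure E} [IsProbabilityMeasure ν]
  {H : Finset ι → (ι → E) → ℝ}

lemma bdd_cont {X : Type*} [TopologicalSpace X] [CompactSpace X] {g : X → ℝ} (hg : Continuous g) :
    ∃ C, ∀ x, |g x| ≤ C := by
  obtain ⟨C, hC⟩ := isCompact_univ.exists_bound_of_continuousOn hg.continuousOn
  exact ⟨C, fun x => hC x (Set.mem_univ x)⟩

/-- continuity of the integral over finitely many variables -/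
lemma cont_int (M : Finset ι) {g : (ι → E) → ℝ} (hg : Continuous g) :
    Continuous fun ξ : ι → E => ∫ y : M → E, g (updateFinset ξ M y) ∂(Measure.pi fun _ => ν) := by
  obtain ⟨C, hC⟩ := bdd_cont hg
  refine continuous_of_dominated (bound := fun _ => C) (fun ξ => ?_) (fun ξ => ?_) ?_ ?_
  · exact ((hg.comp (cont_upd M ξ)).measurable).aestronglyMeasurable
  · exact Eventually.of_forall fun y => hC _
  · exact integrable_const _
  · exact Eventually.of_forall fun y => hg.comp (cont_upd' M y)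

lemma In_ofReal (M : Finset ι) {g : (ι → E) → ℝ} (hg : Continuous g) (hg0 : ∀ φ, 0 ≤ g φ)
    (ξ : ι → E) : In ν M (fun φ => ENNReal.ofReal (g φ)) ξ =
      ENNReal.ofReal (∫ y : M → E, g (updateFinset ξ M y) ∂(Measure.pi fun _ => ν)) := by
  obtain ⟨C, hC⟩ := bdd_cont hg
  unfold In lmarginal
  rw [ofReal_integral_eq_lintegral_ofReal]
  · refine Integrable.of_bound (C := C) ((hg.comp (cont_upd M ξ)).measurable).aestronglyMeasurable ?_
    exact Eventually.of_forall fun y => hC _
  · exact Eventually.of_forall fun y => hg0 _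

lemma cont_In (M : Finset ι) {g : (ι → E) → ℝ} (hg : Continuous g) (hg0 : ∀ φ, 0 ≤ g φ) :
    Continuous (In ν M fun φ => ENNReal.ofReal (g φ)) := by
  have h1 : (In ν M fun φ => ENNReal.ofReal (g φ)) = fun ξ =>
      ENNReal.ofReal (∫ y : M → E, g (updateFinset ξ M y) ∂(Measure.pi fun _ => ν)) :=
    funext fun ξ => In_ofReal M hg hg0 ξ
  rw [h1]
  exact ENNReal.continuous_ofReal.comp (cont_int M hg)

lemma Cons.good (hH : Cons H) (M : Finset ι) : Good ν (gw H M) := by
  obtain ⟨C, hC⟩ := bdd_cont (hH.cont M)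
  have hc : ∀ (V : Finset ι) (ψ : ι → E) (c : ℝ≥0∞), In ν V (fun _ : ι → E => c) ψ = c := by
    intro V ψ c
    unfold In lmarginal
    rw [lintegral_const, measure_univ, mul_one]
  have hm : Measurable (gw H M) := by
    unfold gw
    exact ENNReal.measurable_ofReal.comp (Real.measurable_exp.comp (hH.cont M).measurable.neg)
  refine ⟨hm, fun V ψ => ?_, fun V ψ => ?_⟩
  · have h2 := In_mono (ν := ν) (V := V) (f := fun _ => ENNReal.ofReal (Real.exp (-C)))
      (g := gw H M) (fun φ => ENNReal.ofReal_le_ofReal (Real.exp_le_exp.2 (by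
        have := (abs_le.1 (hC φ)).2; linarith))) ψ
    rw [hc] at h2
    exact ne_of_gt (lt_of_lt_of_le (ENNReal.ofReal_pos.2 (Real.exp_pos _)) h2)
  · have h2 := In_mono (ν := ν) (V := V) (g := fun _ => ENNReal.ofReal (Real.exp C))
      (f := gw H M) (fun φ => ENNReal.ofReal_le_ofReal (Real.exp_le_exp.2 (by
        have := (abs_le.1 (hC φ)).1; linarith))) ψ
    rw [hc] at h2
    exact ne_top_of_le_ne_top ENNReal.ofReal_ne_top h2

/-- consistency of the conditional expectations -/
lemma Cons.ev_eq (hH : Cons H) {M M' : Finset ι} (h : M ⊆ M') {F : (ι → E) → ℝ≥0∞}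
    (hF : Measurable F) (ψ : ι → E) : ev ν (gw H M') M F ψ = ev ν (gw H M) M F ψ := by
  obtain ⟨c, hc⟩ : ∃ c, c = ENNReal.ofReal (Real.exp (-(H M' ψ - H M ψ))) := ⟨_, rfl⟩
  have hc0 : c ≠ 0 := by rw [hc]; simp [Real.exp_pos]
  have hct : c ≠ ∞ := by rw [hc]; exact ENNReal.ofReal_ne_top
  have h1 : ∀ φ : ι → E, (∀ i ∉ M, φ i = ψ i) →
      ENNReal.ofReal (Real.exp (-(H M' φ - H M φ))) = c := fun φ hφ => by
    rw [hc, hH.cons M M' h φ ψ hφ]
  have h2 : ∀ φ, gw H M' φ = ENNReal.ofReal (Real.exp (-(H M' φ - H M φ))) * gw H M φ := by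
    intro φ
    unfold gw
    rw [← ENNReal.ofReal_mul (Real.exp_pos _).le, ← Real.exp_add]
    congr 2
    ring
  have hm := (hH.good (ν := ν) M).meas
  unfold ev
  have h3 : (fun φ => gw H M' φ * F φ) =
      fun φ => ENNReal.ofReal (Real.exp (-(H M' φ - H M φ))) * (gw H M φ * F φ) := by
    funext φ
    rw [h2]; ring
  rw [h3, In_mul_left (f := fun φ => gw H M φ * F φ) (hm.mul hF) h1, show gw H M' =
    fun φ => ENNReal.ofReal (Real.exp (-(H M' φ - H M φ))) * gw H M φ from funext h2,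
    In_mul_left hm h1, ENNReal.mul_div_mul_left _ _ hc0 hct]

/-- the finite volume Gibbs measure -/
def ker (ν : Measure E) (H : Finset ι → (ι → E) → ℝ) (M : Finset ι) (ξ : ι → E) :
    Measure (ι → E) :=
  (In ν M (gw H M) ξ)⁻¹ •
    (Measure.map (updateFinset ξ M) (Measure.pi fun _ : M => ν)).withDensity (gw H M)

lemma Cons.lintegral_ker (hH : Cons H) (M : Finset ι) (ξ : ι → E) {F : (ι → E) → ℝ≥0∞}
    (hF : Measurable F) : ∫⁻ φ, F φ ∂(ker ν H M ξ) = ev ν (gw H M) M F ξ := by
  have hm := (hH.good (ν := ν) M).meas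
  unfold ker ev
  rw [lintegral_smul_measure, lintegral_withDensity_eq_lintegral_mul _ hm hF,
    lintegral_map (hm.mul hF) measurable_updateFinset, smul_eq_mul, ENNReal.div_eq_inv_mul]
  rfl

lemma Cons.ker_meas (hH : Cons H) (M : Finset ι) : Measurable (ker ν H M) := by
  refine Measure.measurable_of_measurable_coe _ fun s hs => ?_
  have h1 : (fun ξ => ker ν H M ξ s) = ev ν (gw H M) M (s.indicator 1) := by
    funext ξ
    rw [← hH.lintegral_ker M ξ (measurable_one.indicator hs), lintegral_indicator_one hs]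
  rw [h1]
  exact ev_meas (hH.good M) (measurable_one.indicator hs)

lemma Cons.ker_prob (hH : Cons H) (M : Finset ι) (ξ : ι → E) :
    IsProbabilityMeasure (ker ν H M ξ) := by
  refine ⟨?_⟩
  have h1 := hH.lintegral_ker (ν := ν) M ξ (F := fun _ => 1) measurable_const
  rw [lintegral_one] at h1
  rw [h1, ev_one (hH.good M)]

/-- the conditional expectation of a continuous function is continuous -/
lemma Cons.cont_ev (hH : Cons H) (M : Finset ι) (f : (ι → E) →ᵇ ℝ≥0) :
    ∃ g : (ι → E) →ᵇ ℝ≥0, ∀ ξ, ev ν (gw H M) M (fun φ => (f φ : ℝ≥0∞)) ξ = (g ξ : ℝ≥0∞) := by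
  have hg := hH.good (ν := ν) M
  have hc0 : Continuous fun φ => Real.exp (-(H M φ)) :=
    Real.continuous_exp.comp (hH.cont M).neg
  have hc1 : Continuous fun φ => Real.exp (-(H M φ)) * (f φ : ℝ) :=
    hc0.mul (NNReal.continuous_coe.comp f.continuous)
  have h1 : Continuous (In ν M (gw H M)) := cont_In M hc0 fun φ => (Real.exp_pos _).le
  have h2 : Continuous (In ν M fun φ => gw H M φ * (f φ : ℝ≥0∞)) := by
    have h3 : (fun φ => gw H M φ * (f φ : ℝ≥0∞)) =
        fun φ => ENNReal.ofReal (Real.exp (-(H M φ)) * (f φ : ℝ)) := by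
      funext φ
      unfold gw
      rw [ENNReal.ofReal_mul (Real.exp_pos _).le, ENNReal.ofReal_coe_nnreal]
    rw [h3]
    exact cont_In M hc1 fun φ => mul_nonneg (Real.exp_pos _).le (NNReal.coe_nonneg _)
  have hfin : ∀ ξ, ev ν (gw H M) M (fun φ => (f φ : ℝ≥0∞)) ξ ≠ ∞ := by
    intro ξ
    obtain ⟨C, hC⟩ := bdd_cont (NNReal.continuous_coe.comp f.continuous)
    have h4 : ev ν (gw H M) M (fun φ => (f φ : ℝ≥0∞)) ξ ≤ ENNReal.ofReal C := by
      refine (ev_mono hg (g := fun _ => ENNReal.ofReal C) fun φ => ?_).trans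
        (ev_const hg fun φ _ => rfl).le
      rw [← ENNReal.ofReal_coe_nnreal]
      exact ENNReal.ofReal_le_ofReal ((le_abs_self _).trans (hC φ))
    exact ne_top_of_le_ne_top ENNReal.ofReal_ne_top h4
  have hcont : Continuous (ev ν (gw H M) M fun φ => (f φ : ℝ≥0∞)) := by
    rw [continuous_iff_continuousAt]
    intro ξ
    exact ENNReal.Tendsto.div h2.continuousAt (Or.inr (hg.pos M ξ)) h1.continuousAt
      (Or.inl (hg.fin M ξ))
  refine ⟨BoundedContinuousFunction.mkOfCompact
    ⟨fun ξ => (ev ν (gw H M) M (fun φ => (f φ : ℝ≥0∞)) ξ).toNNReal, ?_⟩, fun ξ => ?_⟩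
  · exact ENNReal.continuousOn_toNNReal.comp_continuous hcont fun ξ => hfin ξ
  · exact (ENNReal.coe_toNNReal (hfin ξ)).symm

/-- **Existence of Gibbs measures.** -/
theorem Cons.exists_gibbs (hH : Cons H) : ∃ P : Measure (ι → E), IsProbabilityMeasure P ∧
    ∀ (M : Finset ι) (F : (ι → E) → ℝ≥0∞), Measurable F →
      ∫⁻ φ, F φ ∂P = ∫⁻ φ, ev ν (gw H M) M F φ ∂P := by
  obtain ⟨ψ₀⟩ : Nonempty (ι → E) := by
    obtain ⟨e⟩ : Nonempty E := by
      by_contra hne
      rw [not_nonempty_iff] at hne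
      exact absurd (measure_univ (μ := ν)) (by simp [Measure.eq_zero_of_isEmpty ν])
    exact ⟨fun _ => e⟩
  obtain ⟨p, hp⟩ : ∃ p : Finset ι → ProbabilityMeasure (ι → E),
      p = fun M => ⟨ker ν H M ψ₀, hH.ker_prob M ψ₀⟩ := ⟨_, rfl⟩
  obtain ⟨U, hU⟩ : ∃ U : Ultrafilter (Finset ι), (U : Filter (Finset ι)) ≤ atTop :=
    ⟨Ultrafilter.of atTop, Ultrafilter.of_le atTop⟩
  obtain ⟨P, -, hP⟩ := isCompact_univ.ultrafilter_le_nhds (U.map p) (by simp)
  have hlim : Tendsto p U (𝓝 P) := hP
  rw [ProbabilityMeasure.tendsto_iff_forall_lintegral_tendsto] at hlim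
  have hdlr : ∀ (M : Finset ι) (f : (ι → E) →ᵇ ℝ≥0),
      ∫⁻ φ, (f φ : ℝ≥0∞) ∂(P : Measure (ι → E)) =
        ∫⁻ φ, ev ν (gw H M) M (fun φ => (f φ : ℝ≥0∞)) φ ∂(P : Measure (ι → E)) := by
    intro M f
    obtain ⟨g, hg⟩ := hH.cont_ev (ν := ν) M f
    simp only [hg]
    have h1 := hlim f
    have h2 := hlim g
    refine tendsto_nhds_unique h1 (h2.congr' ?_)
    refine hU (Filter.eventually_atTop.2 ⟨M, fun M' hM' => ?_⟩)
    rw [hp]
    show ∫⁻ φ, (g φ : ℝ≥0∞) ∂(ker ν H M' ψ₀) = ∫⁻ φ, (f φ : ℝ≥0∞) ∂(ker ν H M' ψ₀)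
    have hfm : Measurable fun φ => (f φ : ℝ≥0∞) :=
      (ENNReal.continuous_coe.comp f.continuous).measurable
    have hgm : Measurable fun φ => (g φ : ℝ≥0∞) :=
      (ENNReal.continuous_coe.comp g.continuous).measurable
    rw [hH.lintegral_ker M' ψ₀ hgm, hH.lintegral_ker M' ψ₀ hfm, ← ev_ev (hH.good M') hM' hfm]
    congr 1
    funext φ
    rw [hH.ev_eq hM' hfm, hg]
  refine ⟨P, inferInstance, fun M F hF => ?_⟩
  have h1 : (P : Measure (ι → E)) = (P : Measure (ι → E)).bind (ker ν H M) := by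
    refine ext_of_forall_lintegral_eq_of_IsFiniteMeasure fun f => ?_
    have hfm : Measurable fun φ => (f φ : ℝ≥0∞) :=
      (ENNReal.continuous_coe.comp f.continuous).measurable
    rw [Measure.lintegral_bind (hH.ker_meas M).aemeasurable hfm.aemeasurable, hdlr M f]
    exact lintegral_congr fun φ => (hH.lintegral_ker M φ hfm).symm
  calc ∫⁻ φ, F φ ∂(P : Measure (ι → E))
      = ∫⁻ φ, F φ ∂((P : Measure (ι → E)).bind (ker ν H M)) := by rw [← h1]
    _ = ∫⁻ φ, ∫⁻ η, F η ∂(ker ν H M φ) ∂(P : Measure (ι → E)) :=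
        Measure.lintegral_bind (hH.ker_meas M).aemeasurable hF.aemeasurable
    _ = _ := lintegral_congr fun φ => hH.lintegral_ker M φ hF

end

end Pool.Agent.N986.PB
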