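import Mathlib

/-!
# Pairing two measures with a ratio bound on a part of the space
-/

set_option autoImplicit false

open MeasureTheory Finset Function
open scoped ENNReal

namespace Pool.Agent.N986.PB

lemma mm {X : Type*} [MeasurableSpace X] {f g : X → ℝ≥0∞} (hf : Measurable f) (hg : Measurable g) :
    Measurable fun x => f x * g x := hf.mul hg

/-- comparison of two averages: on the part `θ` the density `Q` dominates `P` -/
lemma pairing {E : Type*} [MeasurableSpace E] {ν : Measure E} {P Q a b H0 H1 θ : E → ℝ≥0∞}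
    (mP : Measurable P) (mQ : Measurable Q) (ma : Measurable a) (mb : Measurable b)
    (mH0 : Measurable H0) (mH1 : Measurable H1) (mθ : Measurable θ)
    (hP : ∫⁻ s, P s ∂ν = 1) (hQ : ∫⁻ s, Q s ∂ν = 1) (hθ : ∀ s, θ s ≤ 1)
    (hPQ : ∀ s, θ s * P s ≤ Q s) (h0 : ∀ s, θ s ≠ 0 → a s ≤ b s + H0 s)
    (h1 : ∀ s t, a s ≤ b t + H1 s) :
    ∫⁻ s, P s * a s ∂ν ≤ ∫⁻ s, Q s * b s ∂ν +
      ∫⁻ s, (θ s * P s * H0 s + (1 - θ s) * P s * H1 s) ∂ν := by
  have mθP : Measurable fun s => θ s * P s := mm mθ mP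
  have mθ' : Measurable fun s => 1 - θ s := measurable_const.sub mθ
  have mθ'P : Measurable fun s => (1 - θ s) * P s := mm mθ' mP
  have mD : Measurable fun s => Q s - θ s * P s := mQ.sub mθP
  obtain ⟨κ, hκ⟩ : ∃ κ, κ = ∫⁻ s, (1 - θ s) * P s ∂ν := ⟨_, rfl⟩
  obtain ⟨τ, hτ⟩ : ∃ τ, τ = ∫⁻ s, θ s * P s ∂ν := ⟨_, rfl⟩
  have hsplit : ∀ s, P s = θ s * P s + (1 - θ s) * P s := fun s => by
    rw [← add_mul, add_tsub_cancel_of_le (hθ s), one_mul]
  have e1 : τ + κ = 1 := by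
    rw [hτ, hκ, ← lintegral_add_left mθP]
    refine Eq.trans ?_ hP
    exact lintegral_congr fun s => (hsplit s).symm
  have hτf : τ ≠ ∞ := ne_top_of_le_ne_top ENNReal.one_ne_top (e1 ▸ le_self_add)
  have hκf : κ ≠ ∞ := ne_top_of_le_ne_top ENNReal.one_ne_top (e1 ▸ le_add_self)
  have e2 : ∫⁻ s, (Q s - θ s * P s) ∂ν = κ := by
    have h2 : (∫⁻ s, (Q s - θ s * P s) ∂ν) + τ = 1 := by
      rw [hτ, ← lintegral_add_left mD]
      refine Eq.trans ?_ hQ
      exact lintegral_congr fun s => tsub_add_cancel_of_le (hPQ s)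
    rw [← e1, add_comm τ κ] at h2
    exact (ENNReal.add_left_inj hτf).1 h2
  have hQb : ∫⁻ s, Q s * b s ∂ν = ∫⁻ s, θ s * P s * b s ∂ν + ∫⁻ s, (Q s - θ s * P s) * b s ∂ν := by
    rw [← lintegral_add_left (mm mθP mb)]
    refine lintegral_congr fun s => ?_
    rw [← add_mul, add_tsub_cancel_of_le (hPQ s)]
  have hPa : ∫⁻ s, P s * a s ∂ν = ∫⁻ s, θ s * P s * a s ∂ν + ∫⁻ s, (1 - θ s) * P s * a s ∂ν := by
    rw [← lintegral_add_left (mm mθP ma)]
    refine lintegral_congr fun s => ?_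
    rw [← add_mul, ← hsplit]
  have f1 : ∫⁻ s, θ s * P s * a s ∂ν ≤ ∫⁻ s, θ s * P s * b s ∂ν + ∫⁻ s, θ s * P s * H0 s ∂ν := by
    rw [← lintegral_add_left (mm mθP mb)]
    refine lintegral_mono fun s => ?_
    by_cases hs : θ s = 0
    · simp [hs]
    · show θ s * P s * a s ≤ θ s * P s * b s + θ s * P s * H0 s
      rw [← mul_add]
      exact mul_le_mul_right (h0 s hs) _
  have f2 : ∫⁻ s, (1 - θ s) * P s * a s ∂ν ≤
      ∫⁻ s, (Q s - θ s * P s) * b s ∂ν + ∫⁻ s, (1 - θ s) * P s * H1 s ∂ν := by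
    by_cases hκ0 : κ = 0
    · have h3 : ∫⁻ s, (1 - θ s) * P s * a s ∂ν = 0 := by
        rw [hκ0] at hκ
        have h4 := (lintegral_eq_zero_iff mθ'P).1 hκ.symm
        rw [lintegral_eq_zero_iff (mm mθ'P ma)]
        filter_upwards [h4] with s hs
        simp only [Pi.zero_apply] at hs ⊢
        rw [hs, zero_mul]
      rw [h3]
      exact zero_le
    · have key : ∀ s, κ * a s ≤ ∫⁻ t, (Q t - θ t * P t) * b t ∂ν + κ * H1 s := by
        intro s
        rw [← e2, ← lintegral_mul_const _ mD, ← lintegral_mul_const _ mD,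
          ← lintegral_add_left (mm mD mb)]
        refine lintegral_mono fun t => ?_
        show (Q t - θ t * P t) * a s ≤ (Q t - θ t * P t) * b t + (Q t - θ t * P t) * H1 s
        rw [← mul_add]
        exact mul_le_mul_right (h1 s t) _
      have h5 : κ * ∫⁻ s, (1 - θ s) * P s * a s ∂ν ≤
          κ * (∫⁻ s, (Q s - θ s * P s) * b s ∂ν + ∫⁻ s, (1 - θ s) * P s * H1 s ∂ν) := by
        rw [mul_add, ← lintegral_const_mul _ (mm mθ'P ma), ← lintegral_const_mul _ (mm mθ'P mH1)]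
        have h6 : κ * ∫⁻ s, (Q s - θ s * P s) * b s ∂ν =
            ∫⁻ s, (1 - θ s) * P s * ∫⁻ t, (Q t - θ t * P t) * b t ∂ν ∂ν := by
          rw [lintegral_mul_const _ mθ'P, ← hκ]
        rw [h6, ← lintegral_add_left (mm mθ'P measurable_const)]
        refine lintegral_mono fun s => ?_
        calc κ * ((1 - θ s) * P s * a s) = (1 - θ s) * P s * (κ * a s) := by ring
          _ ≤ (1 - θ s) * P s * (∫⁻ t, (Q t - θ t * P t) * b t ∂ν + κ * H1 s) :=
              mul_le_mul_right (key s) _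
          _ = _ := by ring
      exact (ENNReal.mul_le_mul_iff_right hκ0 hκf).1 h5
  rw [hPa, hQb, lintegral_add_left (mm mθP mH0)]
  calc _ ≤ (∫⁻ s, θ s * P s * b s ∂ν + ∫⁻ s, θ s * P s * H0 s ∂ν) +
        (∫⁻ s, (Q s - θ s * P s) * b s ∂ν + ∫⁻ s, (1 - θ s) * P s * H1 s ∂ν) := add_le_add f1 f2
    _ = _ := by ring

end Pool.Agent.N986.PB
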