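import Pool.Agent.N986.PB.Ev
import Pool.Agent.N986.PB.Pair

/-!
# The exploration inequality

Two boundary conditions which agree and are very good outside a set `F`: the difference of the
conditional expectations of a function of the variables in `A` is at most the expectation of the
number of paths from `F` to `A`, of steps `R + 1`, through very bad sites and independent exceptional
sites of density `ε`.
-/

set_option autoImplicit false
set_option linter.unusedSectionVars false

open MeasureTheory Finset Function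
open scoped ENNReal Classical

namespace Pool.Agent.N986.PB

noncomputable section

variable {ι : Type*} {E : Type*} [MeasurableSpace E]

/-- The part of `W` at distance more than `R` from `z`. -/
def off (d : ι → ι → ℕ) (R : ℕ) (W : Finset ι) (z : ι) : Finset ι := W.filter fun v => R < d v z

/-- The part of `W` at distance more than `R` from `F`. -/
def far (d : ι → ι → ℕ) (R : ℕ) (W : Finset ι) (F : Set ι) : Finset ι :=
  W.filter fun v => ∀ y ∈ F, R < d v y

/-- The sum over the paths of length `k` in `W`, from `F` to `A`, pairwise distance of the points more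
than `R`, of the products of the weights `u`. -/
def hp (d : ι → ι → ℕ) (R : ℕ) (A : Finset ι) (u : ι → ℝ≥0∞) : ℕ → Finset ι → Set ι → ℝ≥0∞
  | 0, _, F => if ∃ a ∈ A, ∃ y ∈ F, d a y ≤ R + 1 then 1 else 0
  | k + 1, W, F => ∑ z ∈ W.filter (fun z => ∃ y ∈ F, d z y ≤ R + 1),
      u z * hp d R A u k (off d R W z) {z}

variable (d : ι → ι → ℕ) (R : ℕ) (A : Finset ι)

lemma hp_mono_W (u : ι → ℝ≥0∞) (k : ℕ) : ∀ {W W' : Finset ι} (_ : W ⊆ W') (F : Set ι),
    hp d R A u k W F ≤ hp d R A u k W' F := by
  induction k with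
  | zero => intro W W' _ F; exact le_rfl
  | succ k ih =>
    intro W W' h F
    unfold hp
    refine (Finset.sum_le_sum fun z _ => mul_le_mul_right (ih (W' := off d R W' z) ?_ {z}) _).trans
      (Finset.sum_le_sum_of_subset ?_)
    · exact Finset.filter_subset_filter _ h
    · exact Finset.filter_subset_filter _ h

lemma hp_insert (u : ι → ℝ≥0∞) (k : ℕ) (W : Finset ι) (F : Set ι) (z : ι) :
    hp d R A u k W (insert z F) ≤ hp d R A u k W F + hp d R A u k W {z} := by
  cases k with
  | zero =>
    unfold hp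
    by_cases h1 : ∃ a ∈ A, ∃ y ∈ F, d a y ≤ R + 1
    · rw [if_pos h1]
      refine le_trans ?_ le_self_add
      split_ifs <;> simp
    · by_cases h2 : ∃ a ∈ A, ∃ y ∈ ({z} : Set ι), d a y ≤ R + 1
      · rw [if_pos h2]
        refine le_trans ?_ le_add_self
        split_ifs <;> simp
      · rw [if_neg]
        · exact zero_le
        · rintro ⟨a, ha, y, hy, hay⟩
          rcases hy with rfl | hy
          · exact h2 ⟨a, ha, y, rfl, hay⟩
          · exact h1 ⟨a, ha, y, hy, hay⟩
  | succ k =>
    unfold hp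
    have hsub : W.filter (fun z' => ∃ y ∈ insert z F, d z' y ≤ R + 1) ⊆
        W.filter (fun z' => ∃ y ∈ F, d z' y ≤ R + 1) ∪
          W.filter (fun z' => ∃ y ∈ ({z} : Set ι), d z' y ≤ R + 1) := by
      intro v hv
      rw [Finset.mem_union, Finset.mem_filter, Finset.mem_filter]
      obtain ⟨hv1, y, hy, hvy⟩ := Finset.mem_filter.1 hv
      rcases hy with rfl | hy
      · exact Or.inr ⟨hv1, y, rfl, hvy⟩
      · exact Or.inl ⟨hv1, y, hy, hvy⟩
    refine (Finset.sum_le_sum_of_subset hsub).trans ?_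
    rw [← Finset.sum_union_inter]
    exact le_self_add

/-- The sum over all paths. -/
def hs (u : ι → ℝ≥0∞) (W : Finset ι) (F : Set ι) : ℝ≥0∞ := ∑' k, hp d R A u k W F

lemma hs_mono_W (u : ι → ℝ≥0∞) {W W' : Finset ι} (h : W ⊆ W') (F : Set ι) :
    hs d R A u W F ≤ hs d R A u W' F := ENNReal.tsum_le_tsum fun k => hp_mono_W d R A u k h F

lemma hs_insert (u : ι → ℝ≥0∞) (W : Finset ι) (F : Set ι) (z : ι) :
    hs d R A u W (insert z F) ≤ hs d R A u W F + hs d R A u W {z} := by
  unfold hs
  rw [← ENNReal.tsum_add]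
  exact ENNReal.tsum_le_tsum fun k => hp_insert d R A u k W F z

/-- the decomposition at the first point -/
lemma hs_step (u : ι → ℝ≥0∞) (V : Finset ι) (F : Set ι) {z : ι} (hz : z ∈ far d R V F)
    (hzF : ∃ y ∈ F, d z y ≤ R + 1) :
    hs d R A u (far d R (V.erase z) F) F + u z * hs d R A u (off d R (far d R V F) z) {z} ≤
      hs d R A u (far d R V F) F := by
  have hsub : far d R (V.erase z) F ⊆ (far d R V F).erase z := by
    intro v hv
    obtain ⟨h1, h2⟩ := Finset.mem_filter.1 hv
    obtain ⟨h3, h4⟩ := Finset.mem_erase.1 h1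
    exact Finset.mem_erase.2 ⟨h3, Finset.mem_filter.2 ⟨h4, h2⟩⟩
  have hstep : ∀ k, hp d R A u (k + 1) (far d R (V.erase z) F) F +
      u z * hp d R A u k (off d R (far d R V F) z) {z} ≤ hp d R A u (k + 1) (far d R V F) F := by
    intro k
    have h0 : hp d R A u (k + 1) (far d R (V.erase z) F) F ≤
        ∑ z' ∈ ((far d R V F).filter (fun z => ∃ y ∈ F, d z y ≤ R + 1)).erase z,
          u z' * hp d R A u k (off d R (far d R V F) z') {z'} := by
      refine le_trans (Finset.sum_le_sum fun z' _ => mul_le_mul_right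
        (hp_mono_W d R A u k (W' := off d R (far d R V F) z') ?_ {z'}) _)
        (Finset.sum_le_sum_of_subset ?_)
      · exact Finset.filter_subset_filter _ (hsub.trans (Finset.erase_subset _ _))
      · intro v hv
        obtain ⟨h1, h2⟩ := Finset.mem_filter.1 hv
        obtain ⟨h3, h4⟩ := Finset.mem_erase.1 (hsub h1)
        exact Finset.mem_erase.2 ⟨h3, Finset.mem_filter.2 ⟨h4, h2⟩⟩
    refine (add_le_add_left h0 _).trans (le_of_eq ?_)
    exact Finset.sum_erase_add _ _ (Finset.mem_filter.2 ⟨hz, hzF⟩)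
  unfold hs
  rw [← ENNReal.tsum_mul_left, tsum_eq_zero_add' ENNReal.summable, add_assoc, ← ENNReal.tsum_add]
  conv_rhs => rw [tsum_eq_zero_add' ENNReal.summable]
  exact add_le_add le_rfl (ENNReal.tsum_le_tsum hstep)

lemma hp_meas {X : Type*} [MeasurableSpace X] {u : ι → X → ℝ≥0∞} (hu : ∀ z, Measurable (u z))
    (k : ℕ) : ∀ (W : Finset ι) (F : Set ι), Measurable fun x => hp d R A (fun z => u z x) k W F := by
  induction k with
  | zero => intro W F; unfold hp; exact measurable_const
  | succ k ih =>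
    intro W F
    unfold hp
    exact Finset.measurable_fun_sum _ fun z _ => (hu z).mul (ih _ _)

lemma hs_meas {X : Type*} [MeasurableSpace X] {u : ι → X → ℝ≥0∞} (hu : ∀ z, Measurable (u z))
    (W : Finset ι) (F : Set ι) : Measurable fun x => hs d R A (fun z => u z x) W F :=
  Measurable.ennreal_tsum fun k => hp_meas d R A hu k W F

/-- The weight of a site: `1 + ε` if it is very bad and `ε` if it is very good. -/
def uu (VG : Set E) (ε : ℝ≥0∞) (s : E) : ℝ≥0∞ := VGᶜ.indicator 1 s + ε

lemma uu_meas {VG : Set E} (hVG : MeasurableSet VG) (ε : ℝ≥0∞) : Measurable (uu VG ε) :=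
  (measurable_one.indicator hVG.compl).add measurable_const

/-- The path sum as a function of the configuration. -/
def ps (VG : Set E) (ε : ℝ≥0∞) (W : Finset ι) (F : Set ι) (φ : ι → E) : ℝ≥0∞ :=
  hs d R A (fun z => uu VG ε (φ z)) W F

lemma ps_meas {VG : Set E} (hVG : MeasurableSet VG) (ε : ℝ≥0∞) (W : Finset ι) (F : Set ι) :
    Measurable (ps d R A VG ε W F) :=
  hs_meas d R A (fun z => (uu_meas hVG ε).comp (measurable_pi_apply z)) W F

/-- The Markov property. -/
def Markov (d : ι → ι → ℕ) (ν : Measure E) (w : (ι → E) → ℝ≥0∞) (Λ : Finset ι) : Prop :=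
  ∀ V ⊆ Λ, ∀ (f : (ι → E) → ℝ≥0∞) (A : Finset ι), Measurable f →
    (∀ φ φ' : ι → E, (∀ a ∈ A, φ a = φ' a) → f φ = f φ') →
    ∀ ψ ψ' : ι → E, (∀ y ∉ V, (y ∈ A ∨ ∃ v ∈ V, d v y ≤ 1) → ψ y = ψ' y) →
      ev ν w V f ψ = ev ν w V f ψ'

/-- The ratio property. -/
def Ratio (d : ι → ι → ℕ) (ν : Measure E) (w : (ι → E) → ℝ≥0∞) (Λ : Finset ι) (R : ℕ) (VG : Set E)
    (ε : ℝ≥0∞) : Prop :=
  ∀ V ⊆ Λ, ∀ z ∈ V, ∀ ψ ψ' : ι → E, (∀ y ∉ V, d z y ≤ R → ψ y = ψ' y ∧ ψ y ∈ VG) →
    ∀ s ∈ VG, (1 - ε) * dn ν w V z ψ s ≤ dn ν w V z ψ' s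

/-- **The exploration inequality.** -/
theorem expl {ν : Measure E} [SigmaFinite ν] {w : (ι → E) → ℝ≥0∞} (hw : Good ν w) {Λ : Finset ι}
    {VG : Set E} (hVG : MeasurableSet VG) {ε : ℝ≥0∞} (hε : ε ≤ 1)
    (dself : ∀ a, d a a = 0) (dsymm : ∀ a b, d a b = d b a) (dtri : ∀ a b c, d a c ≤ d a b + d b c)
    (hM : Markov d ν w Λ) (hR : Ratio d ν w Λ R VG ε)
    {f : (ι → E) → ℝ≥0∞} (hf : Measurable f) (hf1 : ∀ φ, f φ ≤ 1)
    (hfA : ∀ φ φ' : ι → E, (∀ a ∈ A, φ a = φ' a) → f φ = f φ') :
    ∀ (n : ℕ) (V : Finset ι) (F : Set ι) (ψ ψ' : ι → E), V.card = n → V ⊆ Λ → (∀ y ∈ F, y ∉ V) →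
      (∀ y, y ∉ V → y ∉ F → ψ y = ψ' y ∧ ψ y ∈ VG) →
      ev ν w V f ψ ≤ ev ν w V f ψ' + ev ν w V (ps d R A VG ε (far d R V F) F) ψ := by
  intro n
  induction n with
  | zero =>
    intro V F ψ ψ' hc hVΛ hFV hag
    have hV : V = ∅ := Finset.card_eq_zero.1 hc
    by_cases hA : ∃ a ∈ A, ∃ y ∈ F, d a y ≤ R + 1
    · refine (ev_le_one hw hf1).trans ?_
      refine le_trans ?_ le_add_self
      rw [← ev_one hw V ψ]
      refine ev_mono hw fun φ => ?_
      refine le_trans ?_ (ENNReal.le_tsum 0)
      show (1 : ℝ≥0∞) ≤ if ∃ a ∈ A, ∃ y ∈ F, d a y ≤ R + 1 then 1 else 0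
      rw [if_pos hA]
    · refine le_trans (le_of_eq ?_) le_self_add
      refine hM V hVΛ f A hf hfA ψ ψ' fun y hy h => ?_
      rcases h with h | ⟨v, hv, _⟩
      · refine (hag y hy fun hyF => hA ⟨y, h, y, hyF, ?_⟩).1
        rw [dself]; omega
      · rw [hV] at hv
        exact absurd hv (Finset.notMem_empty v)
  | succ n ih =>
    intro V F ψ ψ' hc hVΛ hFV hag
    by_cases hz : ∃ z ∈ far d R V F, ∃ y ∈ F, d z y ≤ R + 1
    · -- a step of the exploration
      obtain ⟨z, hzf, hzF⟩ := hz
      obtain ⟨hzV, hzfar⟩ := Finset.mem_filter.1 hzf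
      have hcV : (V.erase z).card = n := by rw [Finset.card_erase_of_mem hzV, hc]; rfl
      have hVz : V.erase z ⊆ Λ := (Finset.erase_subset _ _).trans hVΛ
      have mev : ∀ {g : (ι → E) → ℝ≥0∞} (_ : Measurable g) (χ : ι → E),
          Measurable fun s => ev ν w (V.erase z) g (update χ z s) := fun hg χ =>
        (ev_meas hw hg).comp (measurable_update χ)
      have mp := fun W F' => ps_meas (A := A) (d := d) (R := R) hVG ε W F'
      have mθ : Measurable (VG.indicator fun _ : E => 1 - ε) := measurable_const.indicator hVG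
      have hθ1 : ∀ s, VG.indicator (fun _ : E => 1 - ε) s ≤ 1 := fun s => by
        by_cases hs : s ∈ VG
        · rw [Set.indicator_of_mem hs]; exact tsub_le_self
        · rw [Set.indicator_of_notMem hs]; exact zero_le
      have hag' : ∀ y, y ∉ V → d z y ≤ R → ψ y = ψ' y ∧ ψ y ∈ VG := fun y hy hzy =>
        hag y hy fun hyF => absurd (hzfar y hyF) (by omega)
      have hratio := hR V hVΛ z hzV ψ ψ' hag'
      obtain ⟨g0, hg0⟩ : ∃ g0, g0 = ps d R A VG ε (far d R (V.erase z) F) F := ⟨_, rfl⟩
      obtain ⟨g1, hg1⟩ : ∃ g1, g1 = ps d R A VG ε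
          (far d R (V.erase z) (insert z F)) (insert z F) := ⟨_, rfl⟩
      obtain ⟨gz, hgz⟩ : ∃ gz, gz = ps d R A VG ε (off d R (far d R V F) z) {z} := ⟨_, rfl⟩
      have mg0 : Measurable g0 := hg0 ▸ mp _ _
      have mg1 : Measurable g1 := hg1 ▸ mp _ _
      have mgz : Measurable gz := hgz ▸ mp _ _
      have hle : ∀ φ, g1 φ ≤ g0 φ + gz φ := by
        intro φ
        rw [hg1, hg0, hgz]
        have hsub1 : far d R (V.erase z) (insert z F) ⊆ far d R (V.erase z) F := by
          intro v hv
          obtain ⟨h1, h2⟩ := Finset.mem_filter.1 hv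
          exact Finset.mem_filter.2 ⟨h1, fun y hy => h2 y (Set.mem_insert_of_mem _ hy)⟩
        have hsub2 : far d R (V.erase z) (insert z F) ⊆ off d R (far d R V F) z := by
          intro v hv
          obtain ⟨h1, h2⟩ := Finset.mem_filter.1 hv
          exact Finset.mem_filter.2 ⟨Finset.mem_filter.2 ⟨(Finset.mem_erase.1 h1).2,
            fun y hy => h2 y (Set.mem_insert_of_mem _ hy)⟩, h2 z (Set.mem_insert _ _)⟩
        refine (hs_insert d R A _ _ F z).trans ?_
        exact add_le_add (hs_mono_W d R A _ hsub1 F) (hs_mono_W d R A _ hsub2 {z})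
      have hstep : ∀ φ, g0 φ + uu VG ε (φ z) * gz φ ≤ ps d R A VG ε (far d R V F) F φ := by
        intro φ
        rw [hg0, hgz]
        exact hs_step d R A _ V F hzf hzF
      have main := pairing (ν := ν) (P := dn ν w V z ψ) (Q := dn ν w V z ψ')
        (a := fun s => ev ν w (V.erase z) f (update ψ z s))
        (b := fun s => ev ν w (V.erase z) f (update ψ' z s))
        (H0 := fun s => ev ν w (V.erase z) g0 (update ψ z s))
        (H1 := fun s => ev ν w (V.erase z) g1 (update ψ z s))
        (θ := VG.indicator fun _ => 1 - ε) (dn_meas hw ψ) (dn_meas hw ψ') (mev hf ψ) (mev hf ψ')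
        (mev mg0 ψ) (mev mg1 ψ) mθ (dn_lint hw hzV ψ) (dn_lint hw hzV ψ') hθ1 ?_ ?_ ?_
      · rw [ev_erase hw hzV hf ψ, ev_erase hw hzV hf ψ']
        refine main.trans (add_le_add le_rfl ?_)
        rw [ev_erase hw hzV (mp _ _) ψ]
        refine lintegral_mono fun s => ?_
        show VG.indicator (fun _ => 1 - ε) s * dn ν w V z ψ s *
            ev ν w (V.erase z) g0 (update ψ z s) + (1 - VG.indicator (fun _ => 1 - ε) s) *
            dn ν w V z ψ s * ev ν w (V.erase z) g1 (update ψ z s) ≤
          dn ν w V z ψ s * ev ν w (V.erase z) (ps d R A VG ε (far d R V F) F) (update ψ z s)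
        obtain ⟨θ, hθ⟩ : ∃ θ, θ = VG.indicator (fun _ : E => 1 - ε) s := ⟨_, rfl⟩
        obtain ⟨e0, he0⟩ : ∃ e0, e0 = ev ν w (V.erase z) g0 (update ψ z s) := ⟨_, rfl⟩
        obtain ⟨ez, hez⟩ : ∃ ez, ez = ev ν w (V.erase z) gz (update ψ z s) := ⟨_, rfl⟩
        obtain ⟨P, hP⟩ : ∃ P, P = dn ν w V z ψ s := ⟨_, rfl⟩
        have hθs : θ ≤ 1 := hθ ▸ hθ1 s
        have k1 : ev ν w (V.erase z) g1 (update ψ z s) ≤ e0 + ez := by
          rw [he0, hez, ← ev_add hw mg0]
          exact ev_mono hw hle
        have k2 : e0 + uu VG ε s * ez ≤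
            ev ν w (V.erase z) (ps d R A VG ε (far d R V F) F) (update ψ z s) := by
          rw [he0, hez, ← ev_const_mul hw (g := fun φ => uu VG ε (φ z)) mgz, ← ev_add hw mg0]
          · exact ev_mono hw hstep
          · intro φ hφ
            rw [hφ z (Finset.notMem_erase z V), update_self]
        have k3 : 1 - θ ≤ uu VG ε s := by
          rw [hθ]
          unfold uu
          by_cases hs : s ∈ VG
          · rw [Set.indicator_of_mem hs, ENNReal.sub_sub_cancel ENNReal.one_ne_top hε]
            exact le_add_self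
          · rw [Set.indicator_of_notMem hs, Set.indicator_of_mem (by exact hs), tsub_zero]
            exact le_self_add
        rw [← hθ, ← he0, ← hP]
        calc θ * P * e0 + (1 - θ) * P * ev ν w (V.erase z) g1 (update ψ z s)
            ≤ θ * P * e0 + (1 - θ) * P * (e0 + ez) := by gcongr
          _ = P * ((θ + (1 - θ)) * e0 + (1 - θ) * ez) := by ring
          _ = P * (e0 + (1 - θ) * ez) := by rw [add_tsub_cancel_of_le hθs, one_mul]
          _ ≤ P * (e0 + uu VG ε s * ez) := by gcongr
          _ ≤ _ := by gcongr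
      · intro s
        by_cases hs : s ∈ VG
        · rw [Set.indicator_of_mem hs]; exact hratio s hs
        · rw [Set.indicator_of_notMem hs, zero_mul]; exact zero_le
      · intro s hs
        have hsVG : s ∈ VG := by
          by_contra h
          exact hs (Set.indicator_of_notMem h _)
        rw [hg0]
        refine ih (V.erase z) F (update ψ z s) (update ψ' z s) hcV hVz
          (fun y hy h => hFV y hy (Finset.mem_of_mem_erase h)) fun y hy hyF => ?_
        by_cases hyz : y = z
        · rw [hyz, update_self, update_self]; exact ⟨rfl, hsVG⟩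
        · rw [update_of_ne hyz, update_of_ne hyz]
          exact hag y (fun h => hy (Finset.mem_erase.2 ⟨hyz, h⟩)) hyF
      · intro s t
        rw [hg1]
        refine ih (V.erase z) (insert z F) (update ψ z s) (update ψ' z t) hcV hVz
          (fun y hy h => ?_) fun y hy hyF => ?_
        · rcases hy with rfl | hy
          · exact Finset.notMem_erase _ _ h
          · exact hFV y hy (Finset.mem_of_mem_erase h)
        · have hyz : y ≠ z := fun h => hyF (h ▸ Set.mem_insert _ _)
          rw [update_of_ne hyz, update_of_ne hyz]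
          exact hag y (fun h => hy (Finset.mem_erase.2 ⟨hyz, h⟩))
            fun h => hyF (Set.mem_insert_of_mem _ h)
    · -- the exploration is finished
      by_cases hA : ∃ a ∈ A, ∃ y ∈ F, d a y ≤ R + 1
      · refine (ev_le_one hw hf1).trans ?_
        refine le_trans ?_ le_add_self
        rw [← ev_one hw V ψ]
        refine ev_mono hw fun φ => ?_
        refine le_trans ?_ (ENNReal.le_tsum 0)
        show (1 : ℝ≥0∞) ≤ if ∃ a ∈ A, ∃ y ∈ F, d a y ≤ R + 1 then 1 else 0
        rw [if_pos hA]
      · refine le_trans (le_of_eq ?_) le_self_add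
        have hfarV : far d R V F ⊆ V := Finset.filter_subset _ _
        -- points near the far region
        have hnear : ∀ y, y ∉ far d R V F → (y ∈ A ∨ ∃ v ∈ far d R V F, d v y ≤ 1) →
            y ∉ V ∧ y ∉ F := by
          intro y hy h
          have hyF : ∀ y' ∈ F, R < d y y' := by
            intro y' hy'
            rcases h with h | ⟨v, hv, hvy⟩
            · by_contra hlt
              exact hA ⟨y, h, y', hy', by omega⟩
            · by_contra hlt
              refine hz ⟨v, hv, y', hy', ?_⟩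
              have := dtri v y y'
              omega
          refine ⟨fun hyV => hy (Finset.mem_filter.2 ⟨hyV, hyF⟩), fun h' => ?_⟩
          have := hyF y h'
          rw [dself] at this
          omega
        have e1 : ∀ χ : ι → E, ev ν w V f χ = ev ν w (far d R V F) f χ := by
          intro χ
          rw [← ev_ev hw hfarV hf]
          refine ev_const hw fun φ hφ => ?_
          refine hM _ (hfarV.trans hVΛ) f A hf hfA φ χ fun y hy h => hφ y (hnear y hy h).1
        rw [e1 ψ, e1 ψ']
        refine hM _ (hfarV.trans hVΛ) f A hf hfA ψ ψ' fun y hy h => ?_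
        exact (hag y (hnear y hy h).1 (hnear y hy h).2).1

end

end Pool.Agent.N986.PB
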